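import Pool.Agent.R347.GS.Main

/-!
# Consequences of the Gelfond-Schneider theorem over the field of well approximable numbers
-/

set_option autoImplicit false

namespace Pool.Agent.R347.GS

open Complex
open Pool.Agent.R347.LW

variable {q : ℕ → ℕ} (hq : ∀ k, 2 ≤ q k)

/-- the algebraic numbers among the rationally approximable ones are rational -/
theorem rappr_alg {x : ℝ} (hx : RAppr q x) (ha : IsAlgebraic ℚ x) : ∃ r : ℚ, (r : ℝ) = x := by
  by_contra hcon
  have hirr : Irrational x := fun ⟨r, hr⟩ => hcon ⟨r, hr⟩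
  have hL : Liouville x := by
    intro n
    obtain ⟨h, hh⟩ := hx
    -- choose a tower which is larger
    obtain ⟨κ, hκ⟩ : ∃ κ : ℕ, ∀ k, (2 * tow h (q k)) ^ n < tow κ (q k) := by
      refine ⟨h + n + 4, fun k => ?_⟩
      set t := tow h (q k) with ht
      have h1 : t < 2 ^ t := Nat.lt_two_pow_self
      have h2 : n < 2 ^ n := Nat.lt_two_pow_self
      have h3 : (2 * t) ^ n ≤ (2 ^ (t + 1)) ^ n := by
        refine Nat.pow_le_pow_left ?_ _
        rw [pow_succ]; omega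
      have h4 : (2 * t) ^ n ≤ 2 ^ ((t + 1) * n) := by rw [pow_mul]; exact h3
      have h5 : n ≤ tow n t := by
        have := le_tow n t
        omega
      have h6 : t + 1 ≤ 2 ^ t := h1
      have h7 : (t + 1) * n < 2 ^ (tow n t + t) := by
        rw [pow_add]
        have h8 : n < 2 ^ tow n t := lt_of_le_of_lt h5 Nat.lt_two_pow_self
        have h9 : 0 < 2 ^ t := by positivity
        nlinarith
      have h10 : tow n t + t ≤ tow (n + 2) t := by
        have h11 : t ≤ tow n t := by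
          have := le_tow n t
          omega
        have h12 := two_mul_le_pow (tow n t)
        have h13 : tow (n + 1) t = 2 ^ tow n t := rfl
        have h14 := (tow_lt_succ (n + 1) t).le
        have h18 : tow (n + 1 + 1) t = tow (n + 2) t := rfl
        omega
      have h15 : 2 ^ (tow n t + t) ≤ tow (n + 3) t := by
        rw [tow_succ]
        exact Nat.pow_le_pow_right (by norm_num) h10
      have h16 : 2 ^ ((t + 1) * n) < tow (n + 4) t := by
        rw [tow_succ]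
        exact Nat.pow_lt_pow_right (by norm_num) (lt_of_lt_of_le h7 h15)
      have h17 : tow (n + 4) t = tow (h + n + 4) (q k) := by
        rw [ht, tow_tow]
        congr 1
        ring
      omega
    obtain ⟨k₀, hk₀⟩ := hh κ
    obtain ⟨u, v, hv1, hv2, huv⟩ := hk₀ k₀ le_rfl
    refine ⟨2 * u, 2 * v, by omega, ?_, ?_⟩
    · intro h
      exact hcon ⟨(2 * u : ℤ) / (2 * v : ℤ), by rw [h]; push_cast; ring⟩
    · have e : ((2 * u : ℤ) : ℝ) / ((2 * (v : ℤ) : ℤ) : ℝ) = u / v := by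
        push_cast
        rw [mul_div_mul_left _ _ (by norm_num)]
      rw [e]
      refine lt_of_le_of_lt huv ?_
      have h1 : (2 * v) ^ n < tow κ (q k₀) :=
        lt_of_le_of_lt (Nat.pow_le_pow_left (by omega) n) (hκ k₀)
      have hv0 : (0 : ℝ) < ((2 * (v : ℤ) : ℤ) : ℝ) ^ n := by
        have : (0 : ℝ) < v := by exact_mod_cast hv1
        push_cast
        positivity
      rw [one_div]
      apply inv_strictAnti₀ hv0
      push_cast
      exact_mod_cast h1
  exact hL.transcendental ((IsFractionRing.isAlgebraic_iff ℤ ℚ ℝ).2 ha)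

include hq

theorem gs_iff (l ζ : ℂ) (hl : l ≠ 0) (h1 : Appr q (exp l)) (hζ : Appr q ζ) :
    Appr q (exp (ζ * l)) ↔ ∃ x : ℝ, RAppr q x ∧ ζ = x := by
  refine ⟨gs hq l ζ hl h1 hζ, ?_⟩
  rintro ⟨x, hx, rfl⟩
  exact Appr.rpow hq h1 hx

theorem coset (l s ζ ζ' : ℂ) (hl : l ≠ 0) (h1 : Appr q (exp l)) (hζ : Appr q ζ) (hζ' : Appr q ζ')
    (h : Appr q (exp ((s + ζ) * l))) :
    Appr q (exp ((s + ζ') * l)) ↔ ∃ x : ℝ, RAppr q x ∧ ζ' - ζ = x := by
  rw [← gs_iff hq l (ζ' - ζ) hl h1 (show ζ' - ζ ∈ UK hq from sub_mem hζ' hζ)]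
  constructor
  · intro h2
    have e : exp ((ζ' - ζ) * l) = exp ((s + ζ') * l) * (exp ((s + ζ) * l))⁻¹ := by
      rw [← exp_neg, ← exp_add]
      congr 1
      ring
    rw [e]
    exact h2.mul hq (h.inv hq)
  · intro h2
    have e : exp ((s + ζ') * l) = exp ((ζ' - ζ) * l) * exp ((s + ζ) * l) := by
      rw [← exp_add]
      congr 1
      ring
    rw [e]
    exact h2.mul hq h

theorem line (s : ℂ) (hs : s ≠ 0) : (∀ ζ, Appr q ζ → Appr q (exp (ζ * s)) → ζ = 0) ∨
    ∃ ζ₀, Appr q ζ₀ ∧ ζ₀ ≠ 0 ∧ ∀ ζ, Appr q ζ → (Appr q (exp (ζ * s)) ↔ ∃ x : ℝ, RAppr q x ∧ ζ = x * ζ₀) := by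
  by_cases h : ∀ ζ, Appr q ζ → Appr q (exp (ζ * s)) → ζ = 0
  · exact Or.inl h
  · right
    push Not at h
    obtain ⟨ζ₀, h1, h2, h3⟩ := h
    refine ⟨ζ₀, h1, h3, fun ζ hζ => ?_⟩
    have h4 := gs_iff hq (ζ₀ * s) (ζ / ζ₀) (mul_ne_zero h3 hs) h2
      (show ζ / ζ₀ ∈ UK hq from div_mem hζ h1)
    have e : ζ / ζ₀ * (ζ₀ * s) = ζ * s := by field_simp
    rw [e] at h4
    rw [h4]
    constructor
    · rintro ⟨x, hx, hxe⟩
      exact ⟨x, hx, by rw [← hxe]; field_simp⟩
    · rintro ⟨x, hx, hxe⟩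
      exact ⟨x, hx, by rw [hxe]; field_simp⟩

end Pool.Agent.R347.GS
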