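import Pool.Agent.R347.LW.Core

/-!
# Liouville's inequality in a Galois number field
-/

set_option autoImplicit false

namespace Pool.Agent.R347.GS

open Finset

variable {L : IntermediateField ℚ ℂ}

/-- `D ^ m * x` is an algebraic integer -/
def DI (D m : ℕ) (x : L) : Prop := IsIntegral ℤ ((D : L) ^ m * x)

theorem DI.mono {D m m' : ℕ} {x : L} (h : DI D m x) (hm : m ≤ m') : DI D m' x := by
  obtain ⟨r, rfl⟩ := Nat.exists_eq_add_of_le hm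
  unfold DI at *
  have e : (D : L) ^ (m + r) * x = ((D ^ r : ℕ) : L) * ((D : L) ^ m * x) := by
    push_cast; ring
  rw [e]
  exact (isIntegral_algebraMap (R := ℤ) (A := L) (x := ((D ^ r : ℕ) : ℤ))).mul h |> fun h' => by
    simpa using h'

theorem DI.mul {D m m' : ℕ} {x y : L} (h : DI D m x) (h' : DI D m' y) : DI D (m + m') (x * y) := by
  unfold DI at *
  have e : (D : L) ^ (m + m') * (x * y) = ((D : L) ^ m * x) * ((D : L) ^ m' * y) := by ring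
  rw [e]
  exact IsIntegral.mul h h'

theorem DI.pow {D m : ℕ} {x : L} (h : DI D m x) (r : ℕ) : DI D (r * m) (x ^ r) := by
  unfold DI at *
  have e : (D : L) ^ (r * m) * x ^ r = ((D : L) ^ m * x) ^ r := by rw [mul_pow, ← pow_mul, mul_comm m]
  rw [e]
  exact IsIntegral.pow h r

theorem DI.add {D m : ℕ} {x y : L} (h : DI D m x) (h' : DI D m y) : DI D m (x + y) := by
  unfold DI at *
  rw [mul_add]
  exact IsIntegral.add h h'

theorem DI.int (D m : ℕ) (c : ℤ) : DI D m (c : L) := by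
  unfold DI
  have e : (D : L) ^ m * (c : L) = (((D : ℤ) ^ m * c : ℤ) : L) := by push_cast; rfl
  rw [e]
  exact isIntegral_algebraMap (R := ℤ) (A := L) (x := (D : ℤ) ^ m * c) |> fun h' => by simpa using h'

theorem DI.sum {D m : ℕ} {ι : Type*} (s : Finset ι) (x : ι → L) (h : ∀ i ∈ s, DI D m (x i)) :
    DI D m (∑ i ∈ s, x i) := by
  unfold DI at *
  rw [mul_sum]
  exact IsIntegral.sum _ h

variable (L) [FiniteDimensional ℚ L] [IsGalois ℚ L]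

/-- **Liouville's inequality.** -/
theorem liouville (D m g : ℕ) (hg : Fintype.card (L ≃ₐ[ℚ] L) = g) (x : L) (hx : DI D m x) (hx0 : x ≠ 0)
    (C : ℝ) (hC : 1 ≤ C) (hxC : ∀ σ : L ≃ₐ[ℚ] L, ‖((σ x : L) : ℂ)‖ ≤ C) (hD : 1 ≤ D) :
    1 ≤ ((D : ℝ) ^ m * C) ^ g * ‖(x : ℂ)‖ := by
  classical
  set y : L := (D : L) ^ m * x with hy
  have hD0 : (D : L) ≠ 0 := by exact_mod_cast (by omega : D ≠ 0)
  have hy0 : y ≠ 0 := mul_ne_zero (pow_ne_zero _ hD0) hx0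
  set N : L := ∏ σ : L ≃ₐ[ℚ] L, σ y with hN
  have hNint : IsIntegral ℤ N := IsIntegral.prod _ fun σ _ =>
    IsIntegral.map (σ : L →ₐ[ℚ] L) (hx : IsIntegral ℤ y)
  have hNfix : ∀ τ : L ≃ₐ[ℚ] L, τ N = N := by
    intro τ
    rw [hN, map_prod]
    exact Fintype.prod_equiv (Equiv.mulLeft τ) _ _ fun σ => rfl
  obtain ⟨c, hc⟩ := Pool.Agent.R347.LW.exists_int L N
    (Pool.Agent.R347.LW.integral_val L |>.2 hNint) hNfix
  have hN0 : N ≠ 0 := prod_ne_zero_iff.2 fun σ _ => by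
    rw [Ne, map_eq_zero]; exact hy0
  have hc0 : c ≠ 0 := by
    rintro rfl
    apply hN0
    rw [← hc]
    simp
  have h1 : 1 ≤ ‖(N : ℂ)‖ := by
    rw [← hc]
    have : (((c : ℤ) : L) : ℂ) = (c : ℂ) := by push_cast; rfl
    rw [this, Complex.norm_intCast]
    exact_mod_cast Int.one_le_abs hc0
  have hyn : ∀ σ : L ≃ₐ[ℚ] L, ‖((σ y : L) : ℂ)‖ = (D : ℝ) ^ m * ‖((σ x : L) : ℂ)‖ := by
    intro σ
    rw [hy, map_mul, map_pow, map_natCast]
    push_cast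
    rw [norm_mul, norm_pow, Complex.norm_natCast]
  have h2 : ‖(N : ℂ)‖ = ∏ σ : L ≃ₐ[ℚ] L, ((D : ℝ) ^ m * ‖((σ x : L) : ℂ)‖) := by
    rw [hN]
    push_cast
    rw [norm_prod]
    exact prod_congr rfl fun σ _ => hyn σ
  have hD1 : (1 : ℝ) ≤ (D : ℝ) ^ m := one_le_pow₀ (by exact_mod_cast hD)
  have hDC : 1 ≤ (D : ℝ) ^ m * C := one_le_mul_of_one_le_of_one_le hD1 hC
  have h3 : ‖(N : ℂ)‖ ≤ ((D : ℝ) ^ m * C) ^ g * ‖(x : ℂ)‖ := by
    rw [h2, ← mul_prod_erase univ _ (mem_univ (1 : L ≃ₐ[ℚ] L))]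
    have h4 : ∏ σ ∈ univ.erase (1 : L ≃ₐ[ℚ] L), ((D : ℝ) ^ m * ‖((σ x : L) : ℂ)‖) ≤
        ((D : ℝ) ^ m * C) ^ (g - 1) := by
      calc _ ≤ ∏ _σ ∈ univ.erase (1 : L ≃ₐ[ℚ] L), ((D : ℝ) ^ m * C) :=
            prod_le_prod (fun _ _ => by positivity) fun σ _ =>
              mul_le_mul_of_nonneg_left (hxC σ) (by positivity)
        _ = _ := by rw [prod_const, card_erase_of_mem (mem_univ _), card_univ, hg]
    have hg1 : 1 ≤ g := by
      rw [← hg]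
      exact Fintype.card_pos
    have h5 : (D : ℝ) ^ m * ‖(x : ℂ)‖ ≤ ((D : ℝ) ^ m * C) * ‖(x : ℂ)‖ :=
      mul_le_mul_of_nonneg_right (le_mul_of_one_le_right (by positivity) hC) (norm_nonneg _)
    calc (D : ℝ) ^ m * ‖(((1 : L ≃ₐ[ℚ] L) x : L) : ℂ)‖ *
          ∏ σ ∈ univ.erase (1 : L ≃ₐ[ℚ] L), ((D : ℝ) ^ m * ‖((σ x : L) : ℂ)‖)
        ≤ (((D : ℝ) ^ m * C) * ‖(x : ℂ)‖) * ((D : ℝ) ^ m * C) ^ (g - 1) :=
          mul_le_mul h5 h4 (prod_nonneg fun _ _ => by positivity) (by positivity)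
      _ = ((D : ℝ) ^ m * C) ^ (g - 1 + 1) * ‖(x : ℂ)‖ := by ring
      _ = _ := by rw [Nat.sub_add_cancel hg1]
  exact h1.trans h3

end Pool.Agent.R347.GS
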