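import Mathlib
import Pool.Agent.H297R2.Schwarz

/-!
# Entire functions with many small values
-/

set_option autoImplicit false

namespace Pool.Agent.R347.GS

open Finset Polynomial

/-- **Small values.**  -/
theorem small_values (f : ℂ → ℂ) (hf : Differentiable ℂ f) (Z : Finset ℂ) (ρ δ ε M : ℝ) (hρ : 1 ≤ ρ)
    (hδ : 0 < δ) (hδ1 : δ ≤ 1) (hε : 0 ≤ ε) (hZ : ∀ c ∈ Z, ‖c‖ ≤ ρ)
    (hsep : ∀ c ∈ Z, ∀ c' ∈ Z, c ≠ c' → δ ≤ ‖c - c'‖) (hfZ : ∀ c ∈ Z, ‖f c‖ ≤ ε)
    (hM : ∀ z, ‖z‖ = 5 * ρ → ‖f z‖ ≤ M) (w : ℂ) (hw : ‖w‖ ≤ ρ) :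
    ‖f w‖ ≤ M / 2 ^ Z.card + 2 * (Z.card * ε * (6 * ρ / δ) ^ Z.card) := by
  classical
  set P : ℂ[X] := Lagrange.interpolate Z id f with hP
  set E : ℝ := Z.card * ε * (6 * ρ / δ) ^ Z.card with hE
  have h6 : 1 ≤ 6 * ρ / δ := by
    rw [le_div_iff₀ hδ]; linarith
  have hE0 : 0 ≤ E := by positivity
  have hPZ : ∀ c ∈ Z, P.eval c = f c := fun c hc =>
    Lagrange.eval_interpolate_at_node (s := Z) (v := id) f Function.injective_id.injOn hc
  have hPb : ∀ t : ℂ, ‖t‖ ≤ 5 * ρ → ‖P.eval t‖ ≤ E := by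
    intro t ht
    rw [hP, Lagrange.interpolate_apply, eval_finsetSum]
    refine (norm_sum_le _ _).trans ?_
    calc ∑ c ∈ Z, ‖eval t (C (f c) * Lagrange.basis Z id c)‖
        ≤ ∑ _c ∈ Z, ε * (6 * ρ / δ) ^ Z.card := by
          refine sum_le_sum fun c hc => ?_
          rw [eval_mul, eval_C, norm_mul]
          refine mul_le_mul (hfZ c hc) ?_ (norm_nonneg _) hε
          rw [Lagrange.basis, eval_prod, norm_prod]
          calc ∏ j ∈ Z.erase c, ‖eval t (Lagrange.basisDivisor (id c) (id j))‖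
              ≤ ∏ _j ∈ Z.erase c, (6 * ρ / δ) := by
                refine prod_le_prod (fun _ _ => norm_nonneg _) fun j hj => ?_
                rw [mem_erase] at hj
                rw [Lagrange.basisDivisor, eval_mul, eval_C, eval_sub, eval_X, eval_C, norm_mul,
                  norm_inv, id, id, inv_mul_eq_div]
                have h1 := hsep c hc j hj.2 (Ne.symm hj.1)
                have h2 : ‖t - j‖ ≤ 6 * ρ := by
                  refine (norm_sub_le _ _).trans ?_
                  have := hZ j hj.2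
                  linarith
                exact div_le_div₀ (by positivity) h2 hδ h1
            _ = (6 * ρ / δ) ^ (Z.erase c).card := by rw [prod_const]
            _ ≤ (6 * ρ / δ) ^ Z.card := pow_le_pow_right₀ h6 (card_le_card (erase_subset _ _))
      _ = E := by rw [sum_const, nsmul_eq_mul, hE]; ring
  have hρ0 : 0 < ρ := by linarith
  have hg := Pool.Agent.H297R2.schwarz (fun z => f z - P.eval z) (hf.sub P.differentiable) 1 Z
    (fun c hc j hj => by
      have : j = 0 := by omega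
      subst this
      rw [iteratedDeriv_zero, hPZ c hc, sub_self]) ρ (5 * ρ) (M + E) (2 * ρ)
    (by linarith) (by positivity) hZ w (by linarith) (fun c hc => by
      refine (norm_sub_le _ _).trans ?_
      have := hZ c hc
      linarith) (fun z hz => (norm_sub_le _ _).trans (add_le_add (hM z hz) (hPb z hz.le)))
  rw [one_mul] at hg
  have e1 : (5 * ρ - ρ) ^ Z.card = 2 ^ Z.card * (2 * ρ) ^ Z.card := by
    rw [← mul_pow]; ring_nf
  rw [e1, ← mul_assoc] at hg
  have h2 := le_of_mul_le_mul_right hg (by positivity)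
  have h3 : ‖f w - P.eval w‖ ≤ (M + E) / 2 ^ Z.card := by
    rw [le_div_iff₀ (by positivity)]
    exact h2
  have h4 : ‖f w‖ ≤ ‖f w - P.eval w‖ + ‖P.eval w‖ := by
    have := norm_add_le (f w - P.eval w) (P.eval w)
    rwa [sub_add_cancel] at this
  have h5 := hPb w (by linarith)
  have h7 : E / 2 ^ Z.card ≤ E := div_le_self hE0 (one_le_pow₀ (by norm_num))
  have h8 : (M + E) / 2 ^ Z.card = M / 2 ^ Z.card + E / 2 ^ Z.card := add_div _ _ _
  linarith

end Pool.Agent.R347.GS
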