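import Pool.Agent.R347.GS.Pig
import Pool.Agent.R347.GS.Interp

/-!
# Schneider's method with approximate values, abstract form
-/

set_option autoImplicit false

namespace Pool.Agent.R347.GS

open Finset

/-- **Schneider's method with approximate values.** -/
theorem core {Λ A : Type} [Fintype Λ] (f : Λ → ℂ → ℂ)
    (hf : ∀ x, Differentiable ℂ (f x)) (ζ : A → ℂ) (G : A → Λ → ℂ) (B : ℕ → Finset A)
    (hB : Monotone B) (S Tf : ℕ) (hSTf : S ≤ Tf) (hne : (B S).Nonempty) (k X : ℕ) (hk : 2 ≤ k)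
    (hX : 1 ≤ X) (hcard : Fintype.card Λ = 2 * k * (B S).card) (W : ℝ) (hW : 0 < W)
    (hfW : ∀ a ∈ B S, ∀ x, ‖f x (ζ a)‖ ≤ W)
    (η δ : ℝ) (hη : 0 ≤ η) (hδ : 0 < δ) (hδ1 : δ ≤ 1) (ρ M low : ℕ → ℝ)
    (hρ : ∀ T, S ≤ T → 1 ≤ ρ T)
    (hζ : ∀ T, S ≤ T → T < Tf → ∀ a ∈ B (T + 1), ‖ζ a‖ ≤ ρ T)
    (hM : ∀ T, S ≤ T → T < Tf → ∀ x z, ‖z‖ = 5 * ρ T → ‖f x z‖ ≤ M T)
    (happ : ∀ a ∈ B Tf, ∀ x, ‖f x (ζ a) - G a x‖ ≤ η)
    (hsep : ∀ a ∈ B Tf, ∀ a' ∈ B Tf, a ≠ a' → δ ≤ ‖ζ a - ζ a'‖)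
    (hlow : ∀ T, S ≤ T → T ≤ Tf → ∀ p : Λ → ℤ, (∀ x, |p x| ≤ X) → ∀ a ∈ B T,
      ∑ x, (p x : ℂ) * G a x ≠ 0 → low T ≤ ‖∑ x, (p x : ℂ) * G a x‖)
    (hstart : 4 * (Fintype.card Λ * W * X) / (X : ℝ) ^ k + Fintype.card Λ * X * η < low S)
    (hstep : ∀ T, S ≤ T → T < Tf → Fintype.card Λ * X * M T / 2 ^ (B T).card +
      2 * ((B T).card * (Fintype.card Λ * X * η) * (6 * ρ T / δ) ^ (B T).card) +
      Fintype.card Λ * X * η < low (T + 1)) :
    ∃ p : Λ → ℤ, p ≠ 0 ∧ ∀ a ∈ B Tf, ∑ x, (p x : ℂ) * G a x = 0 := by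
  classical
  have : Nonempty {a // a ∈ B S} := hne.to_subtype
  obtain ⟨p, hp0, hpX, hps⟩ := pigeon (Λ := Λ) (A := {a // a ∈ B S}) k X hk hX
    (by rw [hcard, Fintype.card_coe]) W hW (fun a x => f x (ζ a.1)) (fun a x => hfW _ a.2 x)
  have hpXR : ∀ x, ‖(p x : ℂ)‖ ≤ X := fun x => by
    rw [Complex.norm_intCast]
    exact_mod_cast hpX x
  set n : ℝ := (Fintype.card Λ : ℝ) with hn
  have hn0 : 0 ≤ n := by positivity
  have hX0 : (0 : ℝ) ≤ X := by positivity
  have hdiff : ∀ a ∈ B Tf, ‖∑ x, (p x : ℂ) * f x (ζ a) - ∑ x, (p x : ℂ) * G a x‖ ≤ n * X * η := by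
    intro a ha
    rw [← sum_sub_distrib]
    refine (norm_sum_le _ _).trans ?_
    calc ∑ x, ‖(p x : ℂ) * f x (ζ a) - (p x : ℂ) * G a x‖ ≤ ∑ _x : Λ, X * η := by
          refine sum_le_sum fun x _ => ?_
          rw [← mul_sub, norm_mul]
          exact mul_le_mul (hpXR x) (happ a ha x) (norm_nonneg _) hX0
      _ = n * X * η := by rw [sum_const, card_univ, nsmul_eq_mul, hn]; ring
  set F : ℂ → ℂ := fun z => ∑ x, (p x : ℂ) * f x z with hF
  have hFd : Differentiable ℂ F := by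
    intro z
    exact DifferentiableAt.fun_sum fun x _ => ((hf x) z).const_mul _
  refine ⟨p, hp0, ?_⟩
  have hall : ∀ T, S ≤ T → T ≤ Tf → ∀ a ∈ B T, ∑ x, (p x : ℂ) * G a x = 0 := by
    intro T hT
    induction T, hT using Nat.le_induction with
    | base =>
      intro _ a ha
      by_contra hne0
      have h1 := hlow S le_rfl hSTf p hpX a ha hne0
      have h2 := hps ⟨a, ha⟩
      have h3 := hdiff a (hB hSTf ha)
      have h4 : ‖∑ x, (p x : ℂ) * G a x‖ ≤ ‖∑ x, (p x : ℂ) * f x (ζ a)‖ +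
          ‖∑ x, (p x : ℂ) * f x (ζ a) - ∑ x, (p x : ℂ) * G a x‖ := by
        have := norm_sub_le (∑ x, (p x : ℂ) * f x (ζ a))
          (∑ x, (p x : ℂ) * f x (ζ a) - ∑ x, (p x : ℂ) * G a x)
        rwa [sub_sub_cancel] at this
      linarith
    | succ T hT ih =>
      intro hTf a ha
      have hTf' : T < Tf := by omega
      have ih' := ih (by omega)
      by_contra hne0
      have h1 := hlow (T + 1) (by omega) hTf p hpX a ha hne0
      have h3 := hdiff a (hB hTf ha)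
      have hBT : B T ⊆ B Tf := hB hTf'.le
      have hinj : Set.InjOn ζ (B T) := by
        intro x hx y hy hxy
        by_contra hne'
        have := hsep x (hBT hx) y (hBT hy) hne'
        rw [hxy, sub_self, norm_zero] at this
        linarith
      have hcardZ : ((B T).image ζ).card = (B T).card := card_image_of_injOn hinj
      have h2 := small_values F hFd ((B T).image ζ) (ρ T) δ (n * X * η) (n * X * M T) (hρ T hT) hδ hδ1
        (by positivity) (fun c hc => by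
          obtain ⟨b, hb, rfl⟩ := mem_image.1 hc
          exact hζ T hT hTf' b (hB (Nat.le_succ T) hb)) (fun c hc c' hc' hcc => by
          obtain ⟨b, hb, rfl⟩ := mem_image.1 hc
          obtain ⟨b', hb', rfl⟩ := mem_image.1 hc'
          exact hsep b (hBT hb) b' (hBT hb') (fun h => hcc (by rw [h]))) (fun c hc => by
          obtain ⟨b, hb, rfl⟩ := mem_image.1 hc
          have := hdiff b (hBT hb)
          rwa [ih' b hb, sub_zero] at this) (fun z hz => by
          refine (norm_sum_le _ _).trans ?_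
          calc ∑ x, ‖(p x : ℂ) * f x z‖ ≤ ∑ _x : Λ, X * M T := by
                refine sum_le_sum fun x _ => ?_
                rw [norm_mul]
                exact mul_le_mul (hpXR x) (hM T hT hTf' x z hz) (norm_nonneg _) hX0
            _ = n * X * M T := by rw [sum_const, card_univ, nsmul_eq_mul, hn]; ring)
        (ζ a) (hζ T hT hTf' a ha)
      rw [hcardZ] at h2
      have h5 := hstep T hT hTf'
      have h4 : ‖∑ x, (p x : ℂ) * G a x‖ ≤ ‖F (ζ a)‖ +
          ‖∑ x, (p x : ℂ) * f x (ζ a) - ∑ x, (p x : ℂ) * G a x‖ := by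
        have := norm_sub_le (∑ x, (p x : ℂ) * f x (ζ a))
          (∑ x, (p x : ℂ) * f x (ζ a) - ∑ x, (p x : ℂ) * G a x)
        rwa [sub_sub_cancel] at this
      linarith
  exact hall Tf hSTf le_rfl

end Pool.Agent.R347.GS
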