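import Pool.Agent.R347.LW.GRoot
import Pool.Agent.R347.GS.Arith

/-!
# The functions `z ^ i * exp (j * l * z)` and their values at the points `a + b * z`
-/

set_option autoImplicit false

namespace Pool.Agent.R347.GS

open Finset Complex

variable {d1 d2 : ℕ}

/-- the functions -/
noncomputable def fn (l : ℂ) (x : Fin d1 × Fin d2) (w : ℂ) : ℂ :=
  w ^ (x.1 : ℕ) * exp ((x.2 : ℕ) * (l * w))

/-- the points -/
def pt (z : ℂ) (a : ℕ × ℕ) : ℂ := a.1 + a.2 * z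

/-- the approximate values -/
def val {R : Type*} [CommRing R] (α β γ : R) (a : ℕ × ℕ) (x : Fin d1 × Fin d2) : R :=
  ((a.1 : R) + a.2 * β) ^ (x.1 : ℕ) * (α ^ (a.1 * x.2) * γ ^ (a.2 * x.2))

/-- the box -/
def box (T : ℕ) : Finset (ℕ × ℕ) := range T ×ˢ range T

theorem mem_box {T : ℕ} {a : ℕ × ℕ} : a ∈ box T ↔ a.1 < T ∧ a.2 < T := by
  simp [box]

theorem box_mono : Monotone box := by
  intro S T h a ha
  rw [mem_box] at *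
  omega

theorem card_box (T : ℕ) : (box T).card = T ^ 2 := by
  rw [box, card_product, card_range, pow_two]

theorem fn_diff (l : ℂ) (x : Fin d1 × Fin d2) : Differentiable ℂ (fn l x) := by
  unfold fn
  fun_prop

theorem fn_pt (l z : ℂ) (a : ℕ × ℕ) (x : Fin d1 × Fin d2) :
    fn l x (pt z a) = (pt z a) ^ (x.1 : ℕ) * (exp l ^ (a.1 * x.2) * exp (z * l) ^ (a.2 * x.2)) := by
  unfold fn
  congr 1
  rw [← exp_nat_mul, ← exp_nat_mul, ← exp_add]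
  congr 1
  unfold pt
  push_cast
  ring

theorem exp_le_two_pow (n : ℕ) : Real.exp n ≤ 2 ^ (2 * n) := by
  have h1 : Real.exp n = Real.exp 1 ^ n := by rw [← Real.exp_nat_mul, mul_one]
  rw [h1, pow_mul]
  refine pow_le_pow_left₀ (Real.exp_pos _).le ?_ n
  have := Real.exp_one_lt_d9
  norm_num
  linarith

theorem fn_le (l : ℂ) (Y R : ℕ) (hR : 1 ≤ R) (hl : ‖l‖ ≤ Y) (x : Fin d1 × Fin d2) (w : ℂ)
    (hw : ‖w‖ ≤ R) : ‖fn l x w‖ ≤ (R : ℝ) ^ d1 * 2 ^ (2 * (d2 * (Y * R))) := by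
  unfold fn
  rw [norm_mul, norm_pow]
  have hR1 : (1 : ℝ) ≤ R := by exact_mod_cast hR
  have h1 : ‖w‖ ^ (x.1 : ℕ) ≤ (R : ℝ) ^ d1 := by
    calc ‖w‖ ^ (x.1 : ℕ) ≤ (R : ℝ) ^ (x.1 : ℕ) := pow_le_pow_left₀ (norm_nonneg _) hw _
      _ ≤ (R : ℝ) ^ d1 := pow_le_pow_right₀ hR1 x.1.2.le
  have h2 : ‖exp ((x.2 : ℕ) * (l * w))‖ ≤ 2 ^ (2 * (d2 * (Y * R))) := by
    refine (norm_exp_le_exp_norm _).trans (le_trans ?_ (exp_le_two_pow _))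
    apply Real.exp_le_exp.2
    rw [norm_mul, norm_mul, norm_natCast]
    push_cast
    have : ((x.2 : ℕ) : ℝ) ≤ d2 := by exact_mod_cast x.2.2.le
    gcongr
  exact mul_le_mul h1 h2 (norm_nonneg _) (by positivity)

/-- the approximations of the values -/
theorem apx (T : ℕ) (l z α β γ : ℂ) (B η : ℝ) (hB : 1 ≤ B) (hη : 0 ≤ η)
    (h1 : ‖exp l‖ ≤ B) (h2 : ‖α‖ ≤ B) (h3 : ‖exp (z * l)‖ ≤ B) (h4 : ‖γ‖ ≤ B)
    (h5 : ∀ a ∈ box T, ‖pt z a‖ ≤ B ∧ ‖pt β a‖ ≤ B)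
    (e1 : ‖exp l - α‖ ≤ η) (e2 : ‖z - β‖ ≤ η) (e3 : ‖exp (z * l) - γ‖ ≤ η)
    (a : ℕ × ℕ) (ha : a ∈ box T) (x : Fin d1 × Fin d2) :
    ‖fn l x (pt z a) - val α β γ a x‖ ≤ ((d1 + 2 * d2) * T) * B ^ (d1 + 2 * (T * d2)) * η := by
  rw [fn_pt]
  unfold val
  have haT := mem_box.1 ha
  have hx1 := x.1.2
  have hx2 := x.2.2
  have hB0 : 0 ≤ B := by linarith
  have pw : ∀ (u v : ℂ) (n N : ℕ), ‖u‖ ≤ B → ‖v‖ ≤ B → n ≤ N → ∀ ε : ℝ, ‖u - v‖ ≤ ε →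
      ‖u ^ n - v ^ n‖ ≤ N * B ^ N * ε := by
    intro u v n N hu hv hn ε hε
    refine (Pool.Agent.R347.LW.pow_sub_le u v B hB hu hv n).trans ?_
    have hn' : (n : ℝ) ≤ N := by exact_mod_cast hn
    have hp : B ^ n ≤ B ^ N := pow_le_pow_right₀ hB hn
    have h0 : 0 ≤ ‖u - v‖ := norm_nonneg _
    calc (n : ℝ) * B ^ n * ‖u - v‖ ≤ N * B ^ N * ‖u - v‖ := by gcongr
      _ ≤ N * B ^ N * ε := by gcongr
  have pn : ∀ (u : ℂ) (n N : ℕ), ‖u‖ ≤ B → n ≤ N → ‖u ^ n‖ ≤ B ^ N := by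
    intro u n N hu hn
    rw [norm_pow]
    exact (pow_le_pow_left₀ (norm_nonneg _) hu n).trans (pow_le_pow_right₀ hB hn)
  have n2 : a.1 * (x.2 : ℕ) ≤ T * d2 := Nat.mul_le_mul haT.1.le hx2.le
  have n3 : a.2 * (x.2 : ℕ) ≤ T * d2 := Nat.mul_le_mul haT.2.le hx2.le
  have hpt : ‖pt z a - pt β a‖ ≤ T * η := by
    have : pt z a - pt β a = (a.2 : ℂ) * (z - β) := by unfold pt; ring
    rw [this, norm_mul, norm_natCast]
    have : (a.2 : ℝ) ≤ T := by exact_mod_cast haT.2.le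
    gcongr
  have A1 := pw (pt z a) (pt β a) _ _ (h5 a ha).1 (h5 a ha).2 hx1.le _ hpt
  have A2 := pw (exp l) α _ _ h1 h2 n2 _ e1
  have A3 := pw (exp (z * l)) γ _ _ h3 h4 n3 _ e3
  have B1 := pn (pt β a) _ _ (h5 a ha).2 hx1.le
  have B2 := pn (exp l) _ _ h1 n2
  have B2' := pn α _ _ h2 n2
  have B3 := pn (exp (z * l)) _ _ h3 n3
  have B3' := pn γ _ _ h4 n3
  set X1 := pt z a ^ (x.1 : ℕ)
  set Y1 := pt β a ^ (x.1 : ℕ) with hY1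
  set X2 := exp l ^ (a.1 * (x.2 : ℕ))
  set Y2 := α ^ (a.1 * (x.2 : ℕ))
  set X3 := exp (z * l) ^ (a.2 * (x.2 : ℕ))
  set Y3 := γ ^ (a.2 * (x.2 : ℕ))
  have e : X1 * (X2 * X3) - ((a.1 : ℂ) + a.2 * β) ^ (x.1 : ℕ) * (Y2 * Y3) =
      (X1 - Y1) * (X2 * X3) + Y1 * ((X2 - Y2) * X3) + Y1 * (Y2 * (X3 - Y3)) := by
    have : ((a.1 : ℂ) + a.2 * β) ^ (x.1 : ℕ) = Y1 := rfl
    rw [this]
    ring
  rw [e]
  set P := B ^ d1
  set Q := B ^ (T * d2)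
  have hP0 : 0 ≤ P := by positivity
  have hQ0 : 0 ≤ Q := by positivity
  have eP : B ^ (d1 + 2 * (T * d2)) = P * (Q * Q) := by
    rw [pow_add, two_mul, pow_add]
  have t1 : ‖(X1 - Y1) * (X2 * X3)‖ ≤ (d1 * P * (T * η)) * (Q * Q) := by
    rw [norm_mul, norm_mul]
    exact mul_le_mul A1 (mul_le_mul B2 B3 (norm_nonneg _) hQ0) (by positivity) (by positivity)
  have t2 : ‖Y1 * ((X2 - Y2) * X3)‖ ≤ P * (((T * d2 : ℕ) * Q * η) * Q) := by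
    rw [norm_mul, norm_mul]
    exact mul_le_mul B1 (mul_le_mul A2 B3 (norm_nonneg _) (by positivity)) (by positivity) hP0
  have t3 : ‖Y1 * (Y2 * (X3 - Y3))‖ ≤ P * (Q * ((T * d2 : ℕ) * Q * η)) := by
    rw [norm_mul, norm_mul]
    exact mul_le_mul B1 (mul_le_mul B2' A3 (norm_nonneg _) hQ0) (by positivity) hP0
  refine (norm_add_le _ _).trans ((add_le_add (norm_add_le _ _) le_rfl).trans ?_)
  rw [eP]
  push_cast at t2 t3
  refine (add_le_add (add_le_add t1 t2) t3).trans (le_of_eq ?_)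
  ring

variable {L : IntermediateField ℚ ℂ}

theorem val_DI (D T : ℕ) (α β γ : L) (hα : DI D 1 α) (hβ : DI D 1 β) (hγ : DI D 1 γ) (a : ℕ × ℕ)
    (ha : a ∈ box T) (x : Fin d1 × Fin d2) : DI D (d1 + 2 * (T * d2)) (val α β γ a x) := by
  have haT := mem_box.1 ha
  have hx1 := x.1.2
  have hx2 := x.2.2
  have n2 : a.1 * (x.2 : ℕ) ≤ T * d2 := Nat.mul_le_mul haT.1.le hx2.le
  have n3 : a.2 * (x.2 : ℕ) ≤ T * d2 := Nat.mul_le_mul haT.2.le hx2.le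
  have h1 : DI D 1 ((a.1 : L) + (a.2 : L) * β) := by
    refine DI.add ?_ ?_
    · have := DI.int (L := L) D 1 (a.1 : ℤ)
      exact_mod_cast this
    · have := (DI.int (L := L) D 0 (a.2 : ℤ)).mul hβ
      rw [zero_add] at this
      exact_mod_cast this
  have h2 := h1.pow (x.1 : ℕ)
  have h3 := (hα.pow (a.1 * x.2)).mul (hγ.pow (a.2 * x.2))
  refine (h2.mul h3).mono ?_
  omega

theorem val_conj (T : ℕ) (α β γ : L) (H : ℝ) (hH : 1 ≤ H) (σ : L ≃ₐ[ℚ] L)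
    (hα : ‖((σ α : L) : ℂ)‖ ≤ H) (hβ : ‖((σ β : L) : ℂ)‖ ≤ H)
    (hγ : ‖((σ γ : L) : ℂ)‖ ≤ H) (a : ℕ × ℕ) (ha : a ∈ box T) (x : Fin d1 × Fin d2) :
    ‖((σ (val α β γ a x) : L) : ℂ)‖ ≤ (2 * (T * H)) ^ d1 * H ^ (2 * (T * d2)) := by
  have haT := mem_box.1 ha
  have hx1 := x.1.2
  have hx2 := x.2.2
  have n2 : a.1 * (x.2 : ℕ) ≤ T * d2 := Nat.mul_le_mul haT.1.le hx2.le
  have n3 : a.2 * (x.2 : ℕ) ≤ T * d2 := Nat.mul_le_mul haT.2.le hx2.le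
  have hT1 : (1 : ℝ) ≤ T := by exact_mod_cast (by omega : 1 ≤ T)
  have e : ((σ (val α β γ a x) : L) : ℂ) = ((a.1 : ℂ) + a.2 * ((σ β : L) : ℂ)) ^ (x.1 : ℕ) *
      (((σ α : L) : ℂ) ^ (a.1 * x.2) * ((σ γ : L) : ℂ) ^ (a.2 * x.2)) := by
    unfold val
    rw [map_mul, map_mul, map_pow, map_pow, map_pow, map_add, map_mul, map_natCast, map_natCast]
    push_cast
    rfl
  rw [e, norm_mul, norm_mul, norm_pow, norm_pow, norm_pow]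
  have h1 : ‖(a.1 : ℂ) + a.2 * ((σ β : L) : ℂ)‖ ≤ 2 * (T * H) := by
    refine (norm_add_le _ _).trans ?_
    rw [norm_mul, norm_natCast, norm_natCast]
    have g1 : (a.1 : ℝ) ≤ T := by exact_mod_cast haT.1.le
    have g2 : (a.2 : ℝ) ≤ T := by exact_mod_cast haT.2.le
    have g3 : (a.1 : ℝ) ≤ T * H := g1.trans (le_mul_of_one_le_right (by positivity) hH)
    have g4 : (a.2 : ℝ) * ‖((σ β : L) : ℂ)‖ ≤ T * H := mul_le_mul g2 hβ (norm_nonneg _) (by positivity)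
    linarith
  have h2 : 1 ≤ 2 * (T * H) := by nlinarith
  have p1 : ‖(a.1 : ℂ) + a.2 * ((σ β : L) : ℂ)‖ ^ (x.1 : ℕ) ≤ (2 * (T * H)) ^ d1 :=
    (pow_le_pow_left₀ (norm_nonneg _) h1 _).trans (pow_le_pow_right₀ h2 hx1.le)
  have p2 : ‖((σ α : L) : ℂ)‖ ^ (a.1 * (x.2 : ℕ)) ≤ H ^ (T * d2) :=
    (pow_le_pow_left₀ (norm_nonneg _) hα _).trans (pow_le_pow_right₀ hH n2)
  have p3 : ‖((σ γ : L) : ℂ)‖ ^ (a.2 * (x.2 : ℕ)) ≤ H ^ (T * d2) :=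
    (pow_le_pow_left₀ (norm_nonneg _) hγ _).trans (pow_le_pow_right₀ hH n3)
  have hH0 : 0 ≤ H := by linarith
  rw [two_mul (T * d2), pow_add]
  exact mul_le_mul p1 (mul_le_mul p2 p3 (by positivity) (by positivity)) (by positivity) (by positivity)

theorem val_coe (α β γ : L) (a : ℕ × ℕ) (x : Fin d1 × Fin d2) :
    ((val α β γ a x : L) : ℂ) = val (α : ℂ) (β : ℂ) (γ : ℂ) a x := by
  unfold val
  push_cast
  rfl

end Pool.Agent.R347.GS
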