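import Pool.Agent.R347.GS.Vanish
import Pool.Agent.H297R2.GVander

/-!
# A quantitative Gelfond-Schneider theorem
-/

set_option autoImplicit false

namespace Pool.Agent.R347.GS

open Finset Complex Polynomial

theorem vand (d1 d2 : ℕ) (w : Fin d2 → ℂ) (hw : Function.Injective w) (hw0 : ∀ j, w j ≠ 0)
    (c : Fin d1 → Fin d2 → ℂ)
    (h : ∀ n ∈ Ioc 0 (d1 * d2), ∑ j, ∑ i, c i j * (n : ℂ) ^ (i : ℕ) * w j ^ n = 0) (i : Fin d1)
    (j : Fin d2) : c i j = 0 := by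
  classical
  set q : ℂ → ℂ[X] := fun v => ∑ j ∈ univ.filter (fun j => w j = v), ∑ i : Fin d1, C (c i j) * X ^ (i : ℕ)
    with hq
  have hqw : ∀ j, q (w j) = ∑ i : Fin d1, C (c i j) * X ^ (i : ℕ) := by
    intro j
    rw [hq]
    have : univ.filter (fun j' => w j' = w j) = {j} := by
      ext j'
      simp only [mem_filter, mem_univ, true_and, mem_singleton]
      exact ⟨fun h => hw h, fun h => by rw [h]⟩
    simp only [this, sum_singleton]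
  have h1 := Pool.Agent.H297R2.gen_vander (univ.image w) (fun v hv => by
      obtain ⟨j, _, rfl⟩ := mem_image.1 hv
      exact hw0 j) (d1 * d2) (fun _ => d1) q 0 (d1 * d2) (by
      rw [sum_const, card_image_of_injective _ hw, card_univ, Fintype.card_fin, smul_eq_mul, mul_comm])
      le_rfl (fun v hv => by
      obtain ⟨j, _, rfl⟩ := mem_image.1 hv
      rw [hqw]
      refine lt_of_le_of_lt (degree_sum_le _ _) ?_
      rw [Finset.sup_lt_iff (WithBot.bot_lt_coe _)]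
      intro i _
      exact lt_of_le_of_lt (degree_C_mul_X_pow_le _ _) (by exact_mod_cast i.2)) (fun n hn => by
      rw [zero_add] at hn
      rw [sum_image (fun a _ b _ hab => hw hab)]
      rw [← h n hn]
      refine sum_congr rfl fun j _ => ?_
      rw [hqw, eval_finsetSum, sum_mul]
      refine sum_congr rfl fun i _ => ?_
      rw [eval_mul, eval_C, eval_pow, eval_X]) (w j) (mem_image_of_mem _ (mem_univ _))
  rw [hqw] at h1
  have h2 := congrArg (fun P : ℂ[X] => P.coeff (i : ℕ)) h1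
  simp only [finsetSum_coeff, coeff_C_mul, coeff_X_pow, coeff_zero] at h2
  rw [sum_eq_single i] at h2
  · simpa using h2
  · intro b _ hb
    rw [if_neg (fun h => hb (Fin.ext h.symm)), mul_zero]
  · intro h; exact absurd (mem_univ _) h

theorem sign_cast (m : ℤ) : (m : ℂ) = (m.sign : ℂ) * ((m.natAbs : ℕ) : ℂ) := by
  have h := Int.sign_mul_natAbs m
  have h2 : (m : ℂ) = ((m.sign * (m.natAbs : ℤ) : ℤ) : ℂ) := by rw [h]
  rw [h2, Int.cast_mul, Int.cast_natCast]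

theorem sign_sq (m : ℤ) (h : m ≠ 0) : (m.sign : ℂ) * (m.sign : ℂ) = 1 := by
  rcases lt_or_gt_of_ne h with h' | h'
  · rw [Int.sign_eq_neg_one_of_neg h']; norm_num
  · rw [Int.sign_eq_one_of_pos h']; norm_num

/-- near a period of the exponential function -/
theorem near_period (w : ℂ) (ε : ℝ) (hε : ε ≤ 1 / 2) (h : ‖exp w - 1‖ ≤ ε) :
    ∃ m : ℤ, ‖w - m * (2 * Real.pi * I)‖ ≤ 2 * ε := by
  set u : ℂ := exp w - 1 with hu
  have h1 : ‖log (1 + u)‖ ≤ 3 / 2 * ‖u‖ := Complex.norm_log_one_add_half_le_self (h.trans hε)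
  have h2 : exp (log (1 + u)) = exp w := by
    have : 1 + u = exp w := by rw [hu]; ring
    rw [this, exp_log (exp_ne_zero w)]
  obtain ⟨m, hm⟩ := Complex.exp_eq_exp_iff_exists_int.1 h2.symm
  refine ⟨m, ?_⟩
  have h3 : w - m * (2 * Real.pi * I) = log (1 + u) := by rw [hm]; ring
  rw [h3]
  have h4 := norm_nonneg u
  linarith

/-- the bound for the denominators -/
def VB (Y : ℕ) : ℕ := nn Y + 1 + D2 Y ^ 2 * Y

/-- **A quantitative Gelfond-Schneider theorem.** -/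
theorem gs_quant (Y V Λ : ℕ) (hY : 2 ≤ Y) (hV : 1 ≤ V) (hΛ : PP Y V + QQ Y ≤ Λ) (l z : ℂ)
    (hl : ‖l‖ ≤ Y) (hl2 : (Y : ℝ)⁻¹ ≤ ‖l‖)
    (hz : ‖z‖ ≤ Y) (L : IntermediateField ℚ ℂ) [FiniteDimensional ℚ L] [IsGalois ℚ L]
    (hg : Fintype.card (L ≃ₐ[ℚ] L) ≤ Y) (α β γ : L) (D : ℕ) (hD : 1 ≤ D) (hD2 : D ≤ 2 ^ Y)
    (hα : DI D 1 α) (hβ : DI D 1 β) (hγ : DI D 1 γ)
    (cα : ∀ σ : L ≃ₐ[ℚ] L, ‖((σ α : L) : ℂ)‖ ≤ 2 ^ Y)
    (cβ : ∀ σ : L ≃ₐ[ℚ] L, ‖((σ β : L) : ℂ)‖ ≤ 2 ^ Y)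
    (cγ : ∀ σ : L ≃ₐ[ℚ] L, ‖((σ γ : L) : ℂ)‖ ≤ 2 ^ Y)
    (e1 : ‖exp l - α‖ ≤ ((2 : ℝ) ^ Λ)⁻¹) (e2 : ‖z - β‖ ≤ ((2 : ℝ) ^ Λ)⁻¹)
    (e3 : ‖exp (z * l) - γ‖ ≤ ((2 : ℝ) ^ Λ)⁻¹) :
    ∃ (u : ℤ) (v : ℕ), 1 ≤ v ∧ v ≤ VB Y ∧ ‖z - u / v‖ ≤ (V : ℝ)⁻¹ := by
  by_contra hcon
  push Not at hcon
  have hV0 : (0 : ℝ) < V := by exact_mod_cast hV
  have hV1 : (V : ℝ)⁻¹ ≤ 1 := inv_le_one_of_one_le₀ (by exact_mod_cast hV)
  have hY0 : (0 : ℝ) < Y := by exact_mod_cast (by omega : 0 < Y)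
  have hYp : Y < 2 ^ Y := Nat.lt_two_pow_self
  have hVp : V < 2 ^ V := Nat.lt_two_pow_self
  have hΛP : 10 + 4 * tt Y + V + (2 * Y ^ 2 + uu Y) * D2 Y + (2 * Y ^ 2 + uu Y) ≤ Λ := by
    have h1 : 10 + 4 * tt Y + V ≤ PP Y V := by
      unfold PP
      have : V ≤ (4 + Y + tt Y + V) * (nn Y + 1) ^ 2 :=
        (by omega : V ≤ 4 + Y + tt Y + V).trans (Nat.le_mul_of_pos_right _ (by positivity))
      omega
    have h2 : (2 * Y ^ 2 + uu Y) * D2 Y + (2 * Y ^ 2 + uu Y) ≤ QQ Y := by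
      unfold QQ
      have hp : 1 ≤ D1 Y := by unfold D1 ss; exact Nat.one_le_iff_ne_zero.2 (by positivity)
      have h3 : D2 Y + 1 ≤ D1 Y + 2 * ((nn Y + 1) * D2 Y) := by
        have : D2 Y ≤ (nn Y + 1) * D2 Y := Nat.le_mul_of_pos_left _ (by omega)
        omega
      have h4 := Nat.mul_le_mul_left (2 * Y ^ 2 + uu Y) h3
      have h5 : (2 * Y ^ 2 + uu Y) * (D2 Y + 1) = (2 * Y ^ 2 + uu Y) * D2 Y + (2 * Y ^ 2 + uu Y) := by
        ring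
      omega
    omega
  -- separation
  have hsep : ∀ a ∈ box (nn Y + 1), ∀ a' ∈ box (nn Y + 1), a ≠ a' →
      (V : ℝ)⁻¹ ≤ ‖pt z a - pt z a'‖ := by
    intro a ha a' ha' hne
    have h1 := mem_box.1 ha
    have h2 := mem_box.1 ha'
    have e : pt z a - pt z a' = ((a.1 : ℤ) - (a'.1 : ℤ) : ℤ) + ((a.2 : ℤ) - (a'.2 : ℤ) : ℤ) * z := by
      unfold pt; push_cast; ring
    rw [e]
    by_cases h : (a.2 : ℤ) - (a'.2 : ℤ) = 0
    · rw [h, Int.cast_zero, zero_mul, add_zero, norm_intCast]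
      have h3 : (a.1 : ℤ) - (a'.1 : ℤ) ≠ 0 := by
        intro h4
        apply hne
        exact Prod.ext (by omega) (by omega)
      have h4 : (1 : ℝ) ≤ |(((a.1 : ℤ) - (a'.1 : ℤ) : ℤ) : ℝ)| := by
        exact_mod_cast Int.one_le_abs h3
      exact hV1.trans h4
    · set m : ℤ := (a.2 : ℤ) - (a'.2 : ℤ) with hm
      have hv1 : 1 ≤ m.natAbs := Int.natAbs_pos.2 h
      have hv2 : m.natAbs ≤ VB Y := by
        unfold VB; omega
      have h3 := hcon (-(((a.1 : ℤ) - (a'.1 : ℤ)) * m.sign)) m.natAbs hv1 hv2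
      have hmC : (m : ℂ) ≠ 0 := by exact_mod_cast h
      have h4 : (((-(((a.1 : ℤ) - (a'.1 : ℤ)) * m.sign) : ℤ)) : ℂ) / ((m.natAbs : ℕ) : ℂ) =
          -((((a.1 : ℤ) - (a'.1 : ℤ) : ℤ)) : ℂ) / m := by
        have hn0 : ((m.natAbs : ℕ) : ℂ) ≠ 0 := by exact_mod_cast (by omega : m.natAbs ≠ 0)
        have hs3 := sign_cast m
        have hs4 := sign_sq m h
        rw [div_eq_div_iff hn0 hmC]
        push_cast
        generalize ((m.natAbs : ℕ) : ℂ) = N at *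
        generalize (m.sign : ℂ) = S at *
        rw [hs3]
        linear_combination (-((a.1 : ℂ) - a'.1) * N) * hs4
      rw [h4] at h3
      have h5 : (((a.1 : ℤ) - (a'.1 : ℤ) : ℤ) : ℂ) + (m : ℂ) * z =
          m * (z - -((((a.1 : ℤ) - (a'.1 : ℤ) : ℤ)) : ℂ) / m) := by
        field_simp; ring
      rw [h5, norm_mul, norm_intCast]
      have h6 : (1 : ℝ) ≤ |(m : ℝ)| := by exact_mod_cast Int.one_le_abs h
      exact h3.le.trans (le_mul_of_one_le_left (norm_nonneg _) h6)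
  obtain ⟨p, hp0, hp⟩ := vanish Y V Λ hY hV hΛ l z hl hz L hg α β γ D hD hD2 hα hβ hγ cα cβ cγ e1 e2 e3
    hsep
  have hB : (1 : ℝ) ≤ 2 ^ (2 * Y ^ 2 + uu Y) := one_le_pow₀ (by norm_num)
  have hpw : ∀ c : ℕ, c ≤ 2 * Y ^ 2 + uu Y → (2 : ℝ) ^ c ≤ 2 ^ (2 * Y ^ 2 + uu Y) := fun c hc =>
    pow_le_pow_right₀ (by norm_num) hc
  have one_app : ∀ (c : L), ((((1 : L ≃ₐ[ℚ] L) c : L)) : ℂ) = (c : ℂ) := fun _ => rfl
  have hzl : ‖z * l‖ ≤ ((Y ^ 2 : ℕ) : ℝ) := by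
    rw [norm_mul]
    push_cast
    rw [pow_two]
    exact mul_le_mul hz hl (norm_nonneg _) (by positivity)
  -- nonvanishing
  have hne : ∀ (w : ℂ) (n : ℕ) (c : ℂ), ‖w‖ ≤ n → 2 * n < Λ → ‖exp w - c‖ ≤ ((2 : ℝ) ^ Λ)⁻¹ → c ≠ 0 := by
    intro w n c hw hn h h0
    rw [h0, sub_zero, norm_exp] at h
    have h1 : Real.exp (-n) ≤ Real.exp w.re := Real.exp_le_exp.2 (by
      have := (abs_le.1 ((abs_re_le_norm w).trans hw)).1
      exact this)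
    have h2 : ((2 : ℝ) ^ (2 * n))⁻¹ ≤ Real.exp (-n) := by
      rw [Real.exp_neg]
      exact inv_anti₀ (Real.exp_pos _) (exp_le_two_pow n)
    have h3 : ((2 : ℝ) ^ Λ)⁻¹ < ((2 : ℝ) ^ (2 * n))⁻¹ :=
      inv_strictAnti₀ (by positivity) (pow_lt_pow_right₀ (by norm_num) hn)
    linarith
  have hα0 : (α : ℂ) ≠ 0 := hne l Y _ hl (by unfold uu tt at hΛP; omega) e1
  have hγ0 : (γ : ℂ) ≠ 0 := hne (z * l) (Y ^ 2) _ hzl (by omega) e3
  have hD2n : D2 Y ≤ 2 ^ tt Y := by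
    refine le_trans ?_ (nn_le Y hY)
    unfold nn
    have : 1 ≤ D1 Y := by unfold D1 ss; exact Nat.one_le_iff_ne_zero.2 (by positivity)
    nlinarith
  -- powers
  have inj_of : ∀ c : ℂ, c ≠ 0 → (∀ j : ℕ, 1 ≤ j → j < D2 Y → c ^ j ≠ 1) →
      Function.Injective (fun j : Fin (D2 Y) => c ^ (j : ℕ)) := by
    intro c hc h
    have key : ∀ i j : ℕ, i < j → j < D2 Y → c ^ i ≠ c ^ j := by
      intro i j hij hj hcc
      apply h (j - i) (by omega) (by omega)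
      have : c ^ i * c ^ (j - i) = c ^ i * 1 := by
        rw [← pow_add, Nat.add_sub_cancel' hij.le, mul_one]; exact hcc.symm
      exact mul_left_cancel₀ (pow_ne_zero _ hc) this
    intro i j hij
    rcases lt_trichotomy (i : ℕ) (j : ℕ) with h' | h' | h'
    · exact absurd hij (key _ _ h' j.2)
    · exact Fin.ext h'
    · exact absurd hij.symm (key _ _ h' i.2)
  -- the root of unity cases
  by_cases hα1 : ∀ j : ℕ, 1 ≤ j → j < D2 Y → (α : ℂ) ^ j ≠ 1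
  · apply hp0
    funext x
    have h1 := vand (D1 Y) (D2 Y) (fun j => (α : ℂ) ^ (j : ℕ)) (inj_of _ hα0 hα1)
      (fun j => pow_ne_zero _ hα0) (fun i j => (p (i, j) : ℂ)) (fun n hn => by
        rw [mem_Ioc] at hn
        rw [← hp (n, 0) (mem_box.2 ⟨by unfold nn; omega, by simp⟩), Fintype.sum_prod_type, sum_comm]
        refine sum_congr rfl fun i _ => sum_congr rfl fun j _ => ?_
        unfold val
        simp only [Nat.cast_zero, zero_mul, add_zero, pow_zero, mul_one]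
        rw [mul_assoc, ← pow_mul, mul_comm (j : ℕ) n]) x.1 x.2
    exact_mod_cast h1
  push Not at hα1
  obtain ⟨j, hj1, hj2, hj⟩ := hα1
  by_cases hβ0 : (β : ℂ) = 0
  · rw [hβ0, sub_zero] at e2
    have h1 := hcon 0 1 le_rfl (by unfold VB; omega)
    rw [Int.cast_zero, zero_div, sub_zero] at h1
    have h2 : ((2 : ℝ) ^ Λ)⁻¹ ≤ (V : ℝ)⁻¹ := by
      apply inv_anti₀ hV0
      have : (V : ℝ) ≤ 2 ^ V := by exact_mod_cast hVp.le
      exact this.trans (pow_le_pow_right₀ (by norm_num) (by omega))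
    linarith
  by_cases hγ1 : ∀ j : ℕ, 1 ≤ j → j < D2 Y → (γ : ℂ) ^ j ≠ 1
  · apply hp0
    funext x
    have h1 := vand (D1 Y) (D2 Y) (fun j => (γ : ℂ) ^ (j : ℕ)) (inj_of _ hγ0 hγ1)
      (fun j => pow_ne_zero _ hγ0) (fun i j => (p (i, j) : ℂ) * (β : ℂ) ^ (i : ℕ)) (fun n hn => by
        rw [mem_Ioc] at hn
        rw [← hp (0, n) (mem_box.2 ⟨by simp, by unfold nn; omega⟩), Fintype.sum_prod_type, sum_comm]
        refine sum_congr rfl fun i _ => sum_congr rfl fun j _ => ?_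
        unfold val
        simp only [Nat.cast_zero, zero_mul, zero_add, pow_zero, one_mul]
        rw [mul_pow, ← pow_mul, mul_comm (j : ℕ) n]
        ring) x.1 x.2
    have h2 := (mul_eq_zero.1 h1).resolve_right (pow_ne_zero _ hβ0)
    exact_mod_cast h2
  push Not at hγ1
  obtain ⟨j', hj1', hj2', hj'⟩ := hγ1
  -- both are roots of unity
  set ε : ℝ := D2 Y * (2 ^ (2 * Y ^ 2 + uu Y)) ^ D2 Y * ((2 : ℝ) ^ Λ)⁻¹ with hε
  have hbig : ((D2 Y : ℕ) : ℝ) * (1 + Y) * ε ≤ ((2 : ℝ) ^ (V + 2))⁻¹ := by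
    have h1 : ((D2 Y : ℕ) : ℝ) ≤ 2 ^ tt Y := by exact_mod_cast hD2n
    have h2 : (1 + (Y : ℝ)) ≤ 2 ^ Y := by exact_mod_cast (by omega : 1 + Y ≤ 2 ^ Y)
    calc ((D2 Y : ℕ) : ℝ) * (1 + Y) * ε
        ≤ 2 ^ tt Y * 2 ^ Y * (2 ^ tt Y * (2 ^ (2 * Y ^ 2 + uu Y)) ^ D2 Y * ((2 : ℝ) ^ Λ)⁻¹) := by
          rw [hε]; gcongr
      _ = 2 ^ (tt Y + Y + tt Y + (2 * Y ^ 2 + uu Y) * D2 Y) * ((2 : ℝ) ^ Λ)⁻¹ := by
          rw [← pow_mul, pow_add, pow_add, pow_add]; ring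
      _ ≤ _ := two_aux (by unfold tt at *; omega)
  have hD2pos : (1 : ℝ) ≤ D2 Y := by exact_mod_cast (by omega : 1 ≤ D2 Y)
  have hε0 : 0 ≤ ε := by positivity
  have hεs : ε ≤ ((2 : ℝ) ^ (V + 2))⁻¹ := by
    refine le_trans ?_ hbig
    have : 1 ≤ ((D2 Y : ℕ) : ℝ) * (1 + Y) := by nlinarith
    exact le_mul_of_one_le_left hε0 this
  have h14 : ((2 : ℝ) ^ (V + 2))⁻¹ ≤ 1 / 4 := by
    rw [inv_le_comm₀ (by positivity) (by norm_num)]
    calc ((1 : ℝ) / 4)⁻¹ = 2 ^ 2 := by norm_num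
      _ ≤ 2 ^ (V + 2) := pow_le_pow_right₀ (by norm_num) (by omega)
  have hε2 : ε ≤ 1 / 2 := by linarith
  have close : ∀ (w : ℂ) (c : ℂ) (i : ℕ), i < D2 Y → ‖exp w‖ ≤ 2 ^ (2 * Y ^ 2 + uu Y) →
      ‖c‖ ≤ 2 ^ (2 * Y ^ 2 + uu Y) → ‖exp w - c‖ ≤ ((2 : ℝ) ^ Λ)⁻¹ → c ^ i = 1 →
      ‖exp (i * w) - 1‖ ≤ ε := by
    intro w c i hi hw hc h1 h2
    rw [exp_nat_mul, ← h2]
    refine (Pool.Agent.R347.LW.pow_sub_le _ _ _ hB hw hc i).trans ?_
    rw [hε]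
    have : (i : ℝ) ≤ D2 Y := by exact_mod_cast hi.le
    gcongr
  have nα : ‖(α : ℂ)‖ ≤ 2 ^ (2 * Y ^ 2 + uu Y) := by
    have := cα 1; rw [one_app] at this; exact this.trans (hpw _ (by unfold uu; omega))
  have nγ : ‖(γ : ℂ)‖ ≤ 2 ^ (2 * Y ^ 2 + uu Y) := by
    have := cγ 1; rw [one_app] at this; exact this.trans (hpw _ (by unfold uu; omega))
  have nl : ‖exp l‖ ≤ 2 ^ (2 * Y ^ 2 + uu Y) := by
    refine (norm_exp_le_exp_norm _).trans ((Real.exp_le_exp.2 hl).trans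
      ((exp_le_two_pow Y).trans (hpw _ ?_)))
    unfold uu tt; omega
  have nzl : ‖exp (z * l)‖ ≤ 2 ^ (2 * Y ^ 2 + uu Y) := by
    refine (norm_exp_le_exp_norm _).trans ((Real.exp_le_exp.2 hzl).trans
      ((exp_le_two_pow (Y ^ 2)).trans (hpw _ ?_)))
    omega
  obtain ⟨m₁, hm₁⟩ := near_period _ ε hε2 (close l α j hj2 nl nα e1 hj)
  obtain ⟨m₂, hm₂⟩ := near_period _ ε hε2 (close (z * l) γ j' hj2' nzl nγ e3 hj')
  have hjR : (1 : ℝ) ≤ j := by exact_mod_cast hj1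
  have hjD : (j : ℝ) ≤ D2 Y := by exact_mod_cast hj2.le
  have hj'R : (1 : ℝ) ≤ j' := by exact_mod_cast hj1'
  have hj'D : (j' : ℝ) ≤ D2 Y := by exact_mod_cast hj2'.le
  have hpi := Real.pi_gt_three
  have hm₁0 : m₁ ≠ 0 := by
    rintro rfl
    rw [Int.cast_zero, zero_mul, sub_zero, norm_mul, Complex.norm_natCast] at hm₁
    have h1 : (Y : ℝ)⁻¹ ≤ j * ‖l‖ := hl2.trans (le_mul_of_one_le_left (norm_nonneg _) hjR)
    have h2 : (1 : ℝ) ≤ Y * (2 * ε) := by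
      have h3 : (Y : ℝ)⁻¹ ≤ 2 * ε := h1.trans hm₁
      rwa [inv_le_iff_one_le_mul₀ hY0, mul_comm] at h3
    have h3 : (Y : ℝ) * ε ≤ ((D2 Y : ℕ) : ℝ) * (1 + Y) * ε :=
      mul_le_mul_of_nonneg_right (by nlinarith) hε0
    linarith
  have hv1 : 1 ≤ j' * m₁.natAbs := Nat.one_le_iff_ne_zero.2 (Nat.mul_ne_zero (by omega) (by omega))
  have hm₁b : |(m₁ : ℝ)| ≤ D2 Y * Y := by
    have h1 : ‖(m₁ : ℂ) * (2 * Real.pi * I)‖ ≤ j * ‖l‖ + 2 * ε := by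
      have h2 : (m₁ : ℂ) * (2 * Real.pi * I) = j * l - (j * l - m₁ * (2 * Real.pi * I)) := by ring
      rw [h2]
      refine (norm_sub_le _ _).trans (add_le_add ?_ hm₁)
      rw [norm_mul, Complex.norm_natCast]
    have h2 : ‖(m₁ : ℂ) * (2 * Real.pi * I)‖ = |(m₁ : ℝ)| * (2 * Real.pi) := by
      rw [norm_mul, norm_intCast]
      congr 1
      simp [abs_of_pos Real.pi_pos]
    rw [h2] at h1
    have h3 : (j : ℝ) * ‖l‖ ≤ D2 Y * Y := mul_le_mul hjD hl (norm_nonneg _) (by positivity)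
    have h4 : (1 : ℝ) ≤ D2 Y * Y := by
      have : (2 : ℝ) ≤ Y := by exact_mod_cast hY
      nlinarith
    have h5 : 0 ≤ |(m₁ : ℝ)| := abs_nonneg _
    nlinarith
  have hv2 : j' * m₁.natAbs ≤ VB Y := by
    have h1 : m₁.natAbs ≤ D2 Y * Y := by
      have : ((m₁.natAbs : ℕ) : ℝ) ≤ ((D2 Y * Y : ℕ) : ℝ) := by
        rw [Nat.cast_natAbs, Int.cast_abs]; push_cast; exact hm₁b
      exact_mod_cast this
    have h2 : j' * m₁.natAbs ≤ D2 Y * (D2 Y * Y) := Nat.mul_le_mul hj2'.le h1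
    have h3 : D2 Y * (D2 Y * Y) = D2 Y ^ 2 * Y := by ring
    unfold VB
    omega
  have h1 := hcon (j * m₂ * m₁.sign) (j' * m₁.natAbs) hv1 hv2
  have hm₁C : (m₁ : ℂ) ≠ 0 := by exact_mod_cast hm₁0
  have hj'C : (j' : ℂ) ≠ 0 := by exact_mod_cast (by omega : j' ≠ 0)
  have hfrac : (((j * m₂ * m₁.sign : ℤ)) : ℂ) / ((j' * m₁.natAbs : ℕ) : ℂ) =
      (j : ℂ) * m₂ / (j' * m₁) := by
    have hn0 : ((m₁.natAbs : ℕ) : ℂ) ≠ 0 := by exact_mod_cast (by omega : m₁.natAbs ≠ 0)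
    have hs3 := sign_cast m₁
    have hs4 := sign_sq m₁ hm₁0
    rw [Int.cast_mul, Int.cast_mul, Int.cast_natCast, Nat.cast_mul,
      div_eq_div_iff (mul_ne_zero hj'C hn0) (mul_ne_zero hj'C hm₁C)]
    generalize ((m₁.natAbs : ℕ) : ℂ) = N at *
    generalize (m₁.sign : ℂ) = S at *
    rw [hs3]
    linear_combination ((j : ℂ) * m₂ * j' * N) * hs4
  rw [hfrac] at h1
  set E1 : ℂ := j * l - m₁ * (2 * Real.pi * I) with hE1
  set E2 : ℂ := j' * (z * l) - m₂ * (2 * Real.pi * I) with hE2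
  have hpiC : (2 * Real.pi * I : ℂ) ≠ 0 := by
    simp [Real.pi_ne_zero]
  have key : z - (j : ℂ) * m₂ / (j' * m₁) = (j * E2 - z * j' * E1) / (2 * Real.pi * I * (j' * m₁)) := by
    rw [eq_div_iff (mul_ne_zero hpiC (mul_ne_zero hj'C hm₁C)), hE1, hE2]
    field_simp
    ring
  have hnum : ‖(j : ℂ) * E2 - z * j' * E1‖ ≤ D2 Y * (2 * ε) + Y * D2 Y * (2 * ε) := by
    refine (norm_sub_le _ _).trans (add_le_add ?_ ?_)
    · rw [norm_mul, Complex.norm_natCast]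
      exact mul_le_mul hjD hm₂ (norm_nonneg _) (by positivity)
    · rw [norm_mul, norm_mul, Complex.norm_natCast]
      exact mul_le_mul (mul_le_mul hz hj'D (by positivity) (by positivity)) hm₁ (norm_nonneg _)
        (by positivity)
  have hden : (1 : ℝ) ≤ ‖(2 * Real.pi * I : ℂ) * (j' * m₁)‖ := by
    rw [norm_mul (2 * Real.pi * I : ℂ), norm_mul (j' : ℂ), Complex.norm_natCast, norm_intCast]
    have h3 : ‖(2 * Real.pi * I : ℂ)‖ = 2 * Real.pi := by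
      simp [abs_of_pos Real.pi_pos]
    have h4 : (1 : ℝ) ≤ |(m₁ : ℝ)| := by exact_mod_cast Int.one_le_abs hm₁0
    rw [h3]
    have h5 : (1 : ℝ) ≤ j' * |(m₁ : ℝ)| := by nlinarith
    nlinarith
  rw [key, norm_div] at h1
  have h2 : ‖(j : ℂ) * E2 - z * j' * E1‖ / ‖(2 * Real.pi * I : ℂ) * (j' * m₁)‖ ≤
      D2 Y * (2 * ε) + Y * D2 Y * (2 * ε) :=
    (div_le_self (norm_nonneg _) hden).trans hnum
  have h3 : D2 Y * (2 * ε) + Y * D2 Y * (2 * ε) = 2 * (((D2 Y : ℕ) : ℝ) * (1 + Y) * ε) := by ring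
  have h4 : 2 * ((2 : ℝ) ^ (V + 2))⁻¹ ≤ (V : ℝ)⁻¹ := by
    have h5 : ((2 : ℝ) ^ (V + 2))⁻¹ = ((2 : ℝ) ^ V)⁻¹ / 4 := by rw [pow_add]; field_simp; norm_num
    have h6 : ((2 : ℝ) ^ V)⁻¹ ≤ (V : ℝ)⁻¹ := inv_anti₀ hV0 (by exact_mod_cast hVp.le)
    have h7 : 0 < ((2 : ℝ) ^ V)⁻¹ := by positivity
    rw [h5]
    linarith
  linarith

end Pool.Agent.R347.GS
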