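import Pool.Agent.R347.GS.Final
import Pool.Agent.R347.LW.Dich

/-!
# The Gelfond-Schneider theorem over the field of well approximable numbers
-/

set_option autoImplicit false

namespace Pool.Agent.R347.GS

open Finset Complex
open Pool.Agent.R347.LW

section

variable {Ω : Type} (q : Ω → ℕ)

/-- a family of natural numbers bounded by a tower -/
def NE (f : Ω → ℕ) : Prop := ∃ h : ℕ, ∀ ω, f ω ≤ tow h (q ω)

variable {q} (hq : ∀ ω, 2 ≤ q ω)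

theorem NE.const (c : ℕ) : NE q (fun _ => c) := ⟨c, fun ω => by
  show c ≤ tow c (q ω)
  have := le_tow c (q ω)
  omega⟩

include hq

theorem NE.mul {f g : Ω → ℕ} (hf : NE q f) (hg : NE q g) : NE q (fun ω => f ω * g ω) := by
  obtain ⟨h, hh⟩ := hf
  obtain ⟨h', hh'⟩ := hg
  refine ⟨max h h' + 2, fun ω => ?_⟩
  have h1 := (hh ω).trans (tow_mono_left (le_max_left h h') _)
  have h2 := (hh' ω).trans (tow_mono_left (le_max_right h h') _)
  exact (Nat.mul_le_mul h1 h2).trans (tow_sq_lt _ _).le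

theorem NE.add {f g : Ω → ℕ} (hf : NE q f) (hg : NE q g) : NE q (fun ω => f ω + g ω) := by
  obtain ⟨h, hh⟩ := hf
  obtain ⟨h', hh'⟩ := hg
  refine ⟨max h h' + 2, fun ω => ?_⟩
  have h1 := (hh ω).trans (tow_mono_left (le_max_left h h') _)
  have h2 := (hh' ω).trans (tow_mono_left (le_max_right h h') _)
  have h3 : 2 ≤ tow (max h h') (q ω) := by
    have := le_tow (max h h') (q ω)
    have := hq ω
    omega
  have h4 := (tow_sq_lt (max h h') (q ω)).le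
  nlinarith

theorem NE.pow {f g : Ω → ℕ} (hf : NE q f) (hg : NE q g) : NE q (fun ω => f ω ^ g ω) := by
  obtain ⟨h, hh⟩ := NE.mul hq hf hg
  refine ⟨h + 1, fun ω => ?_⟩
  rw [tow_succ]
  calc f ω ^ g ω ≤ (2 ^ f ω) ^ g ω := Nat.pow_le_pow_left Nat.lt_two_pow_self.le _
    _ = 2 ^ (f ω * g ω) := by rw [pow_mul]
    _ ≤ _ := Nat.pow_le_pow_right (by norm_num) (hh ω)

variable {Y V : Ω → ℕ} (hY : NE q Y) (hV : NE q V)

include hY

theorem NE.ss : NE q (fun ω => ss (Y ω)) :=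
  NE.pow hq (NE.const 2) (NE.mul hq (NE.const 16) hY)

theorem NE.D1 : NE q (fun ω => D1 (Y ω)) := NE.pow hq (NE.ss hq hY) (NE.const 5)

theorem NE.D2 : NE q (fun ω => D2 (Y ω)) :=
  NE.mul hq (NE.mul hq (NE.const 2) (NE.add hq hY (NE.const 2))) (NE.ss hq hY)

theorem NE.SS : NE q (fun ω => SS (Y ω)) := NE.pow hq (NE.ss hq hY) (NE.const 3)

theorem NE.nn : NE q (fun ω => nn (Y ω)) := NE.mul hq (NE.D1 hq hY) (NE.D2 hq hY)

theorem NE.tt : NE q (fun ω => tt (Y ω)) := NE.mul hq (NE.const 128) hY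

theorem NE.uu : NE q (fun ω => uu (Y ω)) := NE.add hq (NE.add hq (NE.tt hq hY) hY) (NE.const 4)

theorem NE.gam {T : Ω → ℕ} (hT : NE q T) : NE q (fun ω => gam (Y ω) (T ω)) :=
  NE.add hq (NE.mul hq (NE.uu hq hY) (NE.D1 hq hY))
    (NE.mul hq (NE.mul hq (NE.mul hq (NE.const 20) (NE.pow hq hY (NE.const 2))) (NE.D2 hq hY)) hT)

theorem NE.hh {T : Ω → ℕ} (hT : NE q T) : NE q (fun ω => hh (Y ω) (T ω)) :=
  NE.add hq (NE.mul hq (NE.uu hq hY) (NE.D1 hq hY))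
    (NE.mul hq (NE.mul hq (NE.mul hq (NE.const 2) hY) hT) (NE.D2 hq hY))

theorem NE.EE : NE q (fun ω => EE (Y ω)) :=
  NE.add hq (NE.add hq (NE.add hq (NE.add hq (NE.const 3) (NE.tt hq hY))
    (NE.gam hq hY (NE.SS hq hY))) (NE.mul hq (NE.pow hq hY (NE.const 2))
      (NE.add hq (NE.D1 hq hY) (NE.mul hq (NE.mul hq (NE.const 2) (NE.D2 hq hY)) (NE.SS hq hY)))))
    (NE.mul hq hY (NE.add hq (NE.tt hq hY) (NE.hh hq hY (NE.SS hq hY))))

theorem NE.lam {T : Ω → ℕ} (hT : NE q T) : NE q (fun ω => lam (Y ω) (T ω)) :=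
  NE.mul hq hY (NE.add hq (NE.mul hq hY (NE.add hq (NE.D1 hq hY)
    (NE.mul hq (NE.mul hq (NE.const 2) (NE.D2 hq hY)) hT)))
    (NE.add hq (NE.add hq (NE.tt hq hY) (NE.EE hq hY)) (NE.hh hq hY hT)))

theorem NE.VB : NE q (fun ω => VB (Y ω)) :=
  NE.add hq (NE.add hq (NE.nn hq hY) (NE.const 1))
    (NE.mul hq (NE.pow hq (NE.D2 hq hY) (NE.const 2)) hY)

theorem NE.QQ : NE q (fun ω => QQ (Y ω)) :=
  NE.add hq (NE.add hq (NE.mul hq (NE.const 2) (NE.tt hq hY)) (NE.const 2))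
    (NE.mul hq (NE.add hq (NE.mul hq (NE.const 2) (NE.pow hq hY (NE.const 2))) (NE.uu hq hY))
      (NE.add hq (NE.D1 hq hY) (NE.mul hq (NE.const 2)
        (NE.mul hq (NE.add hq (NE.nn hq hY) (NE.const 1)) (NE.D2 hq hY)))))

include hV

theorem NE.PP : NE q (fun ω => PP (Y ω) (V ω)) :=
  NE.add hq (NE.add hq (NE.add hq (NE.add hq (NE.const 10) (NE.mul hq (NE.const 4) (NE.tt hq hY)))
    (NE.EE hq hY)) (NE.mul hq (NE.add hq (NE.add hq (NE.add hq (NE.const 4) hY) (NE.tt hq hY)) hV)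
      (NE.pow hq (NE.add hq (NE.nn hq hY) (NE.const 1)) (NE.const 2))))
    (NE.lam hq hY (NE.add hq (NE.nn hq hY) (NE.const 1)))

end

variable {q : ℕ → ℕ} (hq : ∀ k, 2 ≤ q k)

include hq

/-- **The Gelfond-Schneider theorem for well approximable numbers.** -/
theorem gs (l z : ℂ) (hl : l ≠ 0) (h1 : Appr q (exp l)) (hz : Appr q z)
    (h2 : Appr q (exp (z * l))) : ∃ x : ℝ, RAppr q x ∧ z = x := by
  obtain ⟨ha, hha⟩ := h1
  obtain ⟨hb, hhb⟩ := hz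
  obtain ⟨hc, hhc⟩ := h2
  set h : ℕ := max ha (max hb hc) with hh
  -- the bound for the data
  set X₀ : ℕ := ⌈‖l‖⌉₊ + ⌈‖l‖⁻¹⌉₊ + ⌈‖z‖⌉₊ + 2 with hX₀
  have hNE : NE q (fun k => (3 * tow h (q k) + 1) ^ (3 * tow h (q k) + 1) + tow h (q k) ^ 3 +
      (tow h (q k) + 1) + X₀) :=
    NE.add hq (NE.add hq (NE.add hq (NE.pow hq
      (NE.add hq (NE.mul hq (NE.const 3) ⟨h, fun _ => le_rfl⟩) (NE.const 1))
      (NE.add hq (NE.mul hq (NE.const 3) ⟨h, fun _ => le_rfl⟩) (NE.const 1)))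
      (NE.pow hq ⟨h, fun _ => le_rfl⟩ (NE.const 3)))
      (NE.add hq ⟨h, fun _ => le_rfl⟩ (NE.const 1))) (NE.const X₀)
  obtain ⟨hY, hhY⟩ := hNE
  obtain ⟨hD, hhD⟩ := NE.VB hq (Y := fun k => tow hY (q k)) ⟨hY, fun _ => le_rfl⟩
  have main : ∀ κ : ℕ, ∃ k₀ : ℕ, ∀ k ≥ k₀, ∃ (u : ℤ) (v : ℕ), 1 ≤ v ∧ v ≤ tow hD (q k) ∧
      ‖z - u / v‖ ≤ ((tow κ (q k) : ℕ) : ℝ)⁻¹ := by
    intro κ
    obtain ⟨κ', hκ'⟩ := NE.add hq
      (NE.PP hq (Y := fun k => tow hY (q k)) (V := fun k => tow κ (q k)) ⟨hY, fun _ => le_rfl⟩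
        ⟨κ, fun _ => le_rfl⟩)
      (NE.QQ hq (Y := fun k => tow hY (q k)) ⟨hY, fun _ => le_rfl⟩)
    obtain ⟨ka, hka⟩ := hha (κ' + 1)
    obtain ⟨kb, hkb⟩ := hhb (κ' + 1)
    obtain ⟨kc, hkc⟩ := hhc (κ' + 1)
    refine ⟨max ka (max kb kc), fun k hk => ?_⟩
    obtain ⟨a, haR, hae⟩ := hka k ((le_max_left _ _).trans hk)
    obtain ⟨b, hbR, hbe⟩ := hkb k (((le_max_left _ _).trans (le_max_right _ _)).trans hk)
    obtain ⟨c, hcR, hce⟩ := hkc k (((le_max_right _ _).trans (le_max_right _ _)).trans hk)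
    set N : ℕ := tow h (q k) with hN
    have m1 : tow ha (q k) ≤ N := tow_mono_left (le_max_left _ _) _
    have m2 : tow hb (q k) ≤ N := tow_mono_left ((le_max_left _ _).trans (le_max_right _ _)) _
    have m3 : tow hc (q k) ≤ N := tow_mono_left ((le_max_right _ _).trans (le_max_right _ _)) _
    set A : Fin 3 → ℂ := ![a, b, c] with hA
    have hAR : ∀ i, RB N N (A i) := by
      intro i
      fin_cases i
      · exact haR.mono m1 m1
      · exact hbR.mono m2 m2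
      · exact hcR.mono m3 m3
    obtain ⟨L, hL1, hL2, hL3, B, D, hB, hD1, hD2, hint, hconj⟩ := common_field N N A hAR
    have hB0 : ((B 0 : L) : ℂ) = a := by rw [hB]; rfl
    have hB1 : ((B 1 : L) : ℂ) = b := by rw [hB]; rfl
    have hB2 : ((B 2 : L) : ℂ) = c := by rw [hB]; rfl
    set Y : ℕ := tow hY (q k) with hYd
    have hYb : (3 * N + 1) ^ (3 * N + 1) + N ^ 3 + (N + 1) + X₀ ≤ Y := hhY k
    have hY2 : 2 ≤ Y := by omega
    have hYp : Y < 2 ^ Y := Nat.lt_two_pow_self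
    have hYp' : (Y : ℝ) ≤ 2 ^ Y := by exact_mod_cast hYp.le
    have hcj : ∀ i, ∀ σ : L ≃ₐ[ℚ] L, ‖((σ (B i) : L) : ℂ)‖ ≤ 2 ^ Y := by
      intro i σ
      refine (hconj i σ).trans (le_trans ?_ hYp')
      have : N + 1 ≤ Y := by omega
      exact_mod_cast this
    have hDI : ∀ i, DI D 1 (B i) := by
      intro i
      unfold DI
      rw [pow_one]
      exact hint i
    have hX₀Y : X₀ ≤ Y := by omega
    have hX₀R : (X₀ : ℝ) ≤ Y := by exact_mod_cast hX₀Y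
    have c1 := Nat.le_ceil ‖l‖
    have c2 := Nat.le_ceil ‖l‖⁻¹
    have c3 := Nat.le_ceil ‖z‖
    have hX₀e : (X₀ : ℝ) = ⌈‖l‖⌉₊ + ⌈‖l‖⁻¹⌉₊ + ⌈‖z‖⌉₊ + 2 := by rw [hX₀]; push_cast; ring
    have p1 : (0 : ℝ) ≤ ⌈‖l‖⌉₊ := by positivity
    have p2 : (0 : ℝ) ≤ ⌈‖l‖⁻¹⌉₊ := by positivity
    have p3 : (0 : ℝ) ≤ ⌈‖z‖⌉₊ := by positivity
    have hlY : ‖l‖ ≤ Y := by linarith
    have hzY : ‖z‖ ≤ Y := by linarith
    have hliY : (Y : ℝ)⁻¹ ≤ ‖l‖ := by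
      have h3 : ‖l‖⁻¹ ≤ Y := by linarith
      have h4 : 0 < ‖l‖ := norm_pos_iff.2 hl
      rw [inv_le_comm₀ (by linarith) h4]
      exact h3
    have hΛ : PP Y (tow κ (q k)) + QQ Y ≤ tow κ' (q k) := hκ' k
    have htow : ((tow (κ' + 1) (q k) : ℕ) : ℝ)⁻¹ = ((2 : ℝ) ^ tow κ' (q k))⁻¹ := by
      rw [tow_succ]; push_cast; rfl
    rw [htow] at hae hbe hce
    obtain ⟨u, v, hv1, hv2, huv⟩ := gs_quant Y (tow κ (q k)) (tow κ' (q k)) hY2 (by
      have := le_tow κ (q k)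
      have := hq k
      omega) hΛ l z hlY hliY hzY L (hL3.trans (by
        rw [Fintype.card_fin]
        omega)) (B 0) (B 1) (B 2) D hD1 (hD2.trans (by
        rw [Fintype.card_fin]
        omega)) (hDI 0) (hDI 1) (hDI 2) (hcj 0) (hcj 1) (hcj 2) (by rw [hB0]; exact hae)
        (by rw [hB1]; exact hbe) (by rw [hB2]; exact hce)
    exact ⟨u, v, hv1, hv2.trans (hhD k), huv⟩
  have him : z.im = 0 := by
    by_contra hne
    have h0 : 0 < |z.im| := abs_pos.2 hne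
    obtain ⟨κ, hκ⟩ := exists_nat_gt (|z.im|⁻¹)
    obtain ⟨k₀, hk₀⟩ := main κ
    obtain ⟨u, v, hv1, _, huv⟩ := hk₀ k₀ le_rfl
    have h3 : |z.im| ≤ ((tow κ (q k₀) : ℕ) : ℝ)⁻¹ := by
      refine le_trans ?_ huv
      have h4 := Complex.abs_im_le_norm (z - u / v)
      have h5 : (z - (u : ℂ) / (v : ℂ)).im = z.im := by
        have : ((u : ℂ) / (v : ℂ)) = (((u : ℝ) / (v : ℝ) : ℝ) : ℂ) := by push_cast; rfl
        rw [this, sub_im, ofReal_im, sub_zero]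
      rwa [h5] at h4
    have h4 : (κ : ℝ) ≤ tow κ (q k₀) := by
      have := le_tow κ (q k₀)
      exact_mod_cast (by omega : κ ≤ tow κ (q k₀))
    have h5 : (0 : ℝ) < tow κ (q k₀) := by
      have : 0 < |z.im|⁻¹ := by positivity
      linarith
    rw [le_inv_comm₀ h0 h5] at h3
    linarith
  refine ⟨z.re, ⟨hD, fun κ => ?_⟩, ?_⟩
  · obtain ⟨k₀, hk₀⟩ := main κ
    refine ⟨k₀, fun k hk => ?_⟩
    obtain ⟨u, v, hv1, hv2, huv⟩ := hk₀ k hk
    refine ⟨u, v, hv1, hv2, le_trans ?_ huv⟩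
    have h4 := Complex.abs_re_le_norm (z - u / v)
    have h5 : (z - (u : ℂ) / (v : ℂ)).re = z.re - u / v := by
      have : ((u : ℂ) / (v : ℂ)) = (((u : ℝ) / (v : ℝ) : ℝ) : ℂ) := by push_cast; rfl
      rw [this, sub_re, ofReal_re]
    rwa [h5] at h4
  · exact Complex.ext (by simp) (by simp [him])

end Pool.Agent.R347.GS
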