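import Mathlib

/-!
# Parameters
-/

set_option autoImplicit false

namespace Pool.Agent.R347.GS

def ss (Y : ℕ) : ℕ := 2 ^ (16 * Y)
def D1 (Y : ℕ) : ℕ := ss Y ^ 5
def D2 (Y : ℕ) : ℕ := 2 * (Y + 2) * ss Y
def SS (Y : ℕ) : ℕ := ss Y ^ 3
def nn (Y : ℕ) : ℕ := D1 Y * D2 Y
def tt (Y : ℕ) : ℕ := 128 * Y
def uu (Y : ℕ) : ℕ := tt Y + Y + 4
def gam (Y T : ℕ) : ℕ := uu Y * D1 Y + 20 * Y ^ 2 * D2 Y * T
def hh (Y T : ℕ) : ℕ := uu Y * D1 Y + 2 * Y * T * D2 Y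
def EE (Y : ℕ) : ℕ :=
  3 + tt Y + gam Y (SS Y) + Y ^ 2 * (D1 Y + 2 * D2 Y * SS Y) + Y * (tt Y + hh Y (SS Y))
def lam (Y T : ℕ) : ℕ := Y * (Y * (D1 Y + 2 * D2 Y * T) + (tt Y + EE Y + hh Y T))

theorem ss_ge (Y : ℕ) (hY : 2 ≤ Y) : 4096 * Y ^ 4 ≤ ss Y := by
  have h1 : Y ≤ 2 ^ Y := Nat.lt_two_pow_self.le
  calc 4096 * Y ^ 4 ≤ 4096 * (2 ^ Y) ^ 4 := by gcongr
    _ = 2 ^ (12 + Y * 4) := by rw [pow_add, ← pow_mul]; norm_num
    _ ≤ 2 ^ (16 * Y) := Nat.pow_le_pow_right (by norm_num) (by omega)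

theorem D2_le (Y : ℕ) (hY : 2 ≤ Y) : D2 Y ≤ 4 * Y * ss Y := by
  unfold D2
  exact Nat.mul_le_mul_right _ (by omega)

theorem uu_le (Y : ℕ) (hY : 2 ≤ Y) : uu Y ≤ 131 * Y := by
  unfold uu tt; omega

theorem nn_le (Y : ℕ) (hY : 2 ≤ Y) : nn Y + 1 ≤ 2 ^ tt Y := by
  have h1 : Y ≤ 2 ^ Y := Nat.lt_two_pow_self.le
  have h2 : nn Y ≤ 2 ^ (97 * Y + 2) := by
    unfold nn D1
    calc ss Y ^ 5 * D2 Y ≤ ss Y ^ 5 * (4 * 2 ^ Y * ss Y) := by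
          refine Nat.mul_le_mul_left _ ((D2_le Y hY).trans ?_)
          gcongr
      _ = 2 ^ (97 * Y + 2) := by
          unfold ss
          rw [show (4 : ℕ) = 2 ^ 2 by norm_num, ← pow_mul, ← pow_add, ← pow_add, ← pow_add]
          congr 1
          ring
  have h3 : 2 ^ (97 * Y + 2) + 1 ≤ 2 ^ (97 * Y + 3) := by
    have : 1 ≤ 2 ^ (97 * Y + 2) := Nat.one_le_two_pow
    rw [pow_succ 2 (97 * Y + 2)]
    omega
  have h4 : 2 ^ (97 * Y + 3) ≤ 2 ^ tt Y := Nat.pow_le_pow_right (by norm_num) (by unfold tt; omega)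
  omega

theorem main_ineq (Y T : ℕ) (hY : 2 ≤ Y) (hT : SS Y ≤ T) :
    3 + tt Y + EE Y + gam Y T + lam Y (T + 1) ≤ T ^ 2 := by
  have hs := ss_ge Y hY
  have hD2 := D2_le Y hY
  have hu := uu_le Y hY
  have hD1 : D1 Y = ss Y ^ 5 := rfl
  have hSS : SS Y = ss Y ^ 3 := rfl
  generalize hsd : ss Y = s at *
  generalize hD2d : D2 Y = d at *
  generalize hud : uu Y = u at *
  have hY0 : 0 < Y := by omega
  have hY2 : 4 ≤ Y ^ 2 := by nlinarith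
  have hs1 : 4096 * 16 ≤ s := by
    have : 16 ≤ Y ^ 4 := by
      have : Y ^ 4 = Y ^ 2 * Y ^ 2 := by ring
      nlinarith
    omega
  have hs0 : 0 < s := by omega
  have hgam : ∀ T, gam Y T ≤ 131 * Y * s ^ 5 + 80 * Y ^ 3 * s * T := by
    intro T
    unfold gam
    rw [hud, hD1, hD2d]
    refine Nat.add_le_add (Nat.mul_le_mul_right _ hu) ?_
    calc 20 * Y ^ 2 * d * T ≤ 20 * Y ^ 2 * (4 * Y * s) * T := by gcongr
      _ = _ := by ring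
  have hhh : ∀ T, hh Y T ≤ 131 * Y * s ^ 5 + 8 * Y ^ 2 * s * T := by
    intro T
    unfold hh
    rw [hud, hD1, hD2d]
    refine Nat.add_le_add (Nat.mul_le_mul_right _ hu) ?_
    calc 2 * Y * T * d ≤ 2 * Y * T * (4 * Y * s) := by gcongr
      _ = _ := by ring
  have hEE : EE Y ≤ 200 * Y ^ 2 * s ^ 5 := by
    unfold EE
    rw [hD1, hSS, hD2d]
    have h1 := hgam (s ^ 3)
    have h2 := hhh (s ^ 3)
    have h3 : Y * (128 * Y + hh Y (s ^ 3)) ≤ Y * (128 * Y + (131 * Y * s ^ 5 + 8 * Y ^ 2 * s * s ^ 3)) :=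
      Nat.mul_le_mul_left _ (Nat.add_le_add le_rfl h2)
    have h4 : Y ^ 2 * (s ^ 5 + 2 * d * s ^ 3) ≤ Y ^ 2 * (s ^ 5 + 2 * (4 * Y * s) * s ^ 3) := by gcongr
    have h5 : tt Y = 128 * Y := rfl
    have h6 : 3 + 128 * Y + 128 * Y ^ 2 ≤ 194 * Y ^ 2 := by nlinarith
    have h7 : (131 * Y + Y ^ 2 + 131 * Y ^ 2) * s ^ 5 ≤ (198 * Y ^ 2) * s ^ 5 :=
      Nat.mul_le_mul_right _ (by nlinarith)
    have h8 : 96 * Y ^ 3 * s ^ 4 ≤ Y ^ 2 * s ^ 5 := by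
      have : 96 * Y ≤ s := by
        have : Y ≤ Y ^ 4 := Nat.le_self_pow (by norm_num) Y
        omega
      calc 96 * Y ^ 3 * s ^ 4 = Y ^ 2 * s ^ 4 * (96 * Y) := by ring
        _ ≤ Y ^ 2 * s ^ 4 * s := Nat.mul_le_mul_left _ this
        _ = _ := by ring
    have h9 : 194 * Y ^ 2 ≤ Y ^ 2 * s ^ 5 := by
      have : 194 ≤ s ^ 5 := by
        calc 194 ≤ s := by omega
          _ ≤ s ^ 5 := Nat.le_self_pow (by norm_num) s
      calc 194 * Y ^ 2 = Y ^ 2 * 194 := by ring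
        _ ≤ _ := Nat.mul_le_mul_left _ this
    rw [h5]
    calc 3 + 128 * Y + gam Y (s ^ 3) + Y ^ 2 * (s ^ 5 + 2 * d * s ^ 3) + Y * (128 * Y + hh Y (s ^ 3))
        ≤ 3 + 128 * Y + (131 * Y * s ^ 5 + 80 * Y ^ 3 * s * s ^ 3) +
          Y ^ 2 * (s ^ 5 + 2 * (4 * Y * s) * s ^ 3) +
          Y * (128 * Y + (131 * Y * s ^ 5 + 8 * Y ^ 2 * s * s ^ 3)) := by omega
      _ = (3 + 128 * Y + 128 * Y ^ 2) + (131 * Y + Y ^ 2 + 131 * Y ^ 2) * s ^ 5 +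
          96 * Y ^ 3 * s ^ 4 := by ring
      _ ≤ Y ^ 2 * s ^ 5 + 198 * Y ^ 2 * s ^ 5 + Y ^ 2 * s ^ 5 := by omega
      _ = _ := by ring
  have hT1 : 1 ≤ T := by
    have : 1 ≤ s ^ 3 := Nat.one_le_pow _ _ hs0
    omega
  have hlam : lam Y (T + 1) ≤ 267 * Y ^ 3 * s ^ 5 + 32 * Y ^ 3 * s * T := by
    unfold lam
    rw [hD1, hD2d]
    have h2 := hhh (T + 1)
    have h5 : tt Y = 128 * Y := rfl
    calc Y * (Y * (s ^ 5 + 2 * d * (T + 1)) + (tt Y + EE Y + hh Y (T + 1)))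
        ≤ Y * (Y * (s ^ 5 + 2 * (4 * Y * s) * (T + 1)) +
          (128 * Y + 200 * Y ^ 2 * s ^ 5 + (131 * Y * s ^ 5 + 8 * Y ^ 2 * s * (T + 1)))) := by
          gcongr
          exact h5.le
      _ = (132 * Y ^ 2 + 200 * Y ^ 3) * s ^ 5 + 16 * Y ^ 3 * s * (T + 1) + 128 * Y ^ 2 := by ring
      _ ≤ (266 * Y ^ 3) * s ^ 5 + 16 * Y ^ 3 * s * (T + T) + Y ^ 3 * s ^ 5 := by
          have e1 : 132 * Y ^ 2 + 200 * Y ^ 3 ≤ 266 * Y ^ 3 := by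
            have : 2 * Y ^ 2 ≤ Y ^ 3 := by
              calc 2 * Y ^ 2 ≤ Y * Y ^ 2 := Nat.mul_le_mul_right _ hY
                _ = Y ^ 3 := by ring
            omega
          have e2 : 128 * Y ^ 2 ≤ Y ^ 3 * s ^ 5 := by
            have : 128 ≤ Y * s ^ 5 := by
              calc 128 ≤ s := by omega
                _ ≤ s ^ 5 := Nat.le_self_pow (by norm_num) s
                _ ≤ Y * s ^ 5 := Nat.le_mul_of_pos_left _ hY0
            calc 128 * Y ^ 2 ≤ (Y * s ^ 5) * Y ^ 2 := Nat.mul_le_mul_right _ this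
              _ = _ := by ring
          gcongr
      _ = _ := by ring
  have hg := hgam T
  have h5 : tt Y = 128 * Y := rfl
  have hfin : 3 + tt Y + EE Y + gam Y T + lam Y (T + 1) ≤ 401 * Y ^ 4 * s ^ 5 + 112 * Y ^ 4 * s * T := by
    have e1 : 3 + 128 * Y ≤ Y ^ 4 * s ^ 5 := by
      have : 3 + 128 * Y ≤ s := by
        have : Y ≤ Y ^ 4 := Nat.le_self_pow (by norm_num) Y
        omega
      calc 3 + 128 * Y ≤ s := this
        _ ≤ s ^ 5 := Nat.le_self_pow (by norm_num) s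
        _ ≤ Y ^ 4 * s ^ 5 := Nat.le_mul_of_pos_left _ (by positivity)
    have e2 : 200 * Y ^ 2 ≤ 50 * Y ^ 4 := by
      calc 200 * Y ^ 2 = 50 * (4 * Y ^ 2) := by ring
        _ ≤ 50 * (Y ^ 2 * Y ^ 2) := by gcongr
        _ = _ := by ring
    have e3 : 131 * Y ≤ 66 * Y ^ 4 := by
      have : 2 * Y ≤ Y ^ 4 := by
        calc 2 * Y ≤ Y * Y := Nat.mul_le_mul_right _ hY
          _ = Y ^ 2 := by ring
          _ ≤ Y ^ 4 := Nat.pow_le_pow_right hY0 (by norm_num)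
      omega
    have e4 : Y ^ 3 ≤ Y ^ 4 := Nat.pow_le_pow_right hY0 (by norm_num)
    calc 3 + tt Y + EE Y + gam Y T + lam Y (T + 1)
        ≤ 3 + 128 * Y + 200 * Y ^ 2 * s ^ 5 + (131 * Y * s ^ 5 + 80 * Y ^ 3 * s * T) +
          (267 * Y ^ 3 * s ^ 5 + 32 * Y ^ 3 * s * T) := by omega
      _ ≤ Y ^ 4 * s ^ 5 + 50 * Y ^ 4 * s ^ 5 + (66 * Y ^ 4 * s ^ 5 + 80 * Y ^ 4 * s * T) +
          (267 * Y ^ 4 * s ^ 5 + 32 * Y ^ 4 * s * T) := by gcongr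
      _ = 384 * Y ^ 4 * s ^ 5 + 112 * Y ^ 4 * s * T := by ring
      _ ≤ _ := by gcongr; norm_num
  have hs3 : s ^ 3 ≤ T := hSS ▸ hT
  have hA : 4096 * (401 * Y ^ 4 * s ^ 5) ≤ 401 * T ^ 2 := by
    calc 4096 * (401 * Y ^ 4 * s ^ 5) = 401 * (4096 * Y ^ 4) * s ^ 5 := by ring
      _ ≤ 401 * s * s ^ 5 := by gcongr
      _ = 401 * (s ^ 3) ^ 2 := by ring
      _ ≤ 401 * T ^ 2 := by gcongr
  have hB : 4096 * (112 * Y ^ 4 * s * T) ≤ 112 * T ^ 2 := by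
    calc 4096 * (112 * Y ^ 4 * s * T) = 112 * (4096 * Y ^ 4) * s * T := by ring
      _ ≤ 112 * s * s * T := by gcongr
      _ = 112 * s ^ 2 * T := by ring
      _ ≤ 112 * s ^ 3 * T := by
          gcongr <;> omega
      _ ≤ 112 * T * T := by gcongr
      _ = _ := by ring
  omega

end Pool.Agent.R347.GS
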