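import Mathlib

/-!
# Small values of integral linear forms, by the pigeonhole principle
-/

set_option autoImplicit false

namespace Pool.Agent.R347.GS

open Finset

/-- cells of an interval -/
theorem cell (B : ℝ) (hB : 0 < B) (l : ℕ) (hl : 1 ≤ l) : ∃ c : ℝ → Fin (l + 1), ∀ x y : ℝ,
    |x| ≤ B → |y| ≤ B → c x = c y → |x - y| ≤ 2 * B / l := by
  refine ⟨fun x => ⟨min ⌊(x + B) * l / (2 * B)⌋₊ l, by omega⟩, fun x y hx hy h => ?_⟩
  have hl0 : (0 : ℝ) < l := by exact_mod_cast hl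
  have key : ∀ z : ℝ, |z| ≤ B → 0 ≤ (z + B) * l / (2 * B) ∧ ⌊(z + B) * l / (2 * B)⌋₊ ≤ l := by
    intro z hz
    have hz' := abs_le.1 hz
    have h0 : 0 ≤ z + B := by linarith [hz'.1]
    refine ⟨by positivity, ?_⟩
    apply Nat.floor_le_of_le
    rw [div_le_iff₀ (by positivity)]
    nlinarith [hz'.2]
  have h1 : ⌊(x + B) * l / (2 * B)⌋₊ = ⌊(y + B) * l / (2 * B)⌋₊ := by
    have := congrArg Fin.val h
    simpa [min_eq_left (key x hx).2, min_eq_left (key y hy).2] using this
  have hx1 := Nat.floor_le (key x hx).1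
  have hx2 := Nat.lt_floor_add_one ((x + B) * l / (2 * B))
  have hy1 := Nat.floor_le (key y hy).1
  have hy2 := Nat.lt_floor_add_one ((y + B) * l / (2 * B))
  rw [h1] at hx1 hx2
  have h3 : |(x + B) * l / (2 * B) - (y + B) * l / (2 * B)| ≤ 1 := by
    rw [abs_le]
    constructor <;> linarith
  have h4 : (x + B) * l / (2 * B) - (y + B) * l / (2 * B) = (x - y) * (l / (2 * B)) := by ring
  rw [h4, abs_mul, abs_of_pos (by positivity : (0 : ℝ) < l / (2 * B))] at h3
  calc |x - y| = |x - y| * (l / (2 * B)) * (2 * B / l) := by field_simp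
    _ ≤ 1 * (2 * B / l) := by gcongr
    _ = _ := one_mul _

theorem pow_add_one_lt (X k : ℕ) (hX : 1 ≤ X) (hk : 2 ≤ k) : X ^ k + 1 < (X + 1) ^ k := by
  induction k, hk using Nat.le_induction with
  | base => nlinarith
  | succ k hk ih =>
    rw [pow_succ, pow_succ]
    have h1 : 1 ≤ X ^ k := Nat.one_le_pow _ _ hX
    nlinarith

/-- **Small values.** -/
theorem pigeon {Λ A : Type} [Fintype Λ] [Fintype A] [Nonempty A] (k X : ℕ) (hk : 2 ≤ k) (hX : 1 ≤ X)
    (hcard : Fintype.card Λ = 2 * k * Fintype.card A) (W : ℝ) (hW : 0 < W) (u : A → Λ → ℂ)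
    (hu : ∀ a x, ‖u a x‖ ≤ W) :
    ∃ p : Λ → ℤ, p ≠ 0 ∧ (∀ x, |p x| ≤ X) ∧
      ∀ a, ‖∑ x, (p x : ℂ) * u a x‖ ≤ 4 * (Fintype.card Λ * W * X) / (X : ℝ) ^ k := by
  classical
  have hΛ : 0 < Fintype.card Λ := by
    rw [hcard]
    have := Fintype.card_pos (α := A)
    positivity
  set n : ℕ := Fintype.card Λ with hn
  set B : ℝ := n * W * X with hBdef
  have hX0 : (0 : ℝ) < X := by exact_mod_cast hX
  have hn0 : (0 : ℝ) < n := by exact_mod_cast hΛ
  have hB : 0 < B := by positivity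
  obtain ⟨c, hc⟩ := cell B hB (X ^ k) (Nat.one_le_pow _ _ hX)
  set v : (Λ → Fin (X + 1)) → A → ℂ := fun t a => ∑ x, ((t x : ℕ) : ℂ) * u a x with hv
  have hvB : ∀ t a, ‖v t a‖ ≤ B := by
    intro t a
    refine (norm_sum_le _ _).trans ?_
    calc ∑ x, ‖((t x : ℕ) : ℂ) * u a x‖ ≤ ∑ _x : Λ, (X : ℝ) * W := by
          refine sum_le_sum fun x _ => ?_
          rw [norm_mul, Complex.norm_natCast]
          refine mul_le_mul ?_ (hu a x) (norm_nonneg _) hX0.le
          exact_mod_cast Nat.lt_succ_iff.1 (t x).2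
      _ = B := by
          rw [sum_const, card_univ, nsmul_eq_mul, hBdef]
          ring
  set Φ : (Λ → Fin (X + 1)) → A → Fin (X ^ k + 1) × Fin (X ^ k + 1) :=
    fun t a => (c (v t a).re, c (v t a).im) with hΦ
  have hlt : Fintype.card (A → Fin (X ^ k + 1) × Fin (X ^ k + 1)) <
      Fintype.card (Λ → Fin (X + 1)) := by
    rw [Fintype.card_fun, Fintype.card_fun, Fintype.card_prod, Fintype.card_fin, Fintype.card_fin,
      ← hn, hcard]
    have h1 := Nat.pow_lt_pow_left (pow_add_one_lt X k hX hk)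
      (Nat.mul_pos two_pos (Fintype.card_pos (α := A))).ne'
    have e1 : ((X ^ k + 1) * (X ^ k + 1)) ^ Fintype.card A = (X ^ k + 1) ^ (2 * Fintype.card A) := by
      rw [pow_mul, pow_two]
    have e2 : (X + 1) ^ (2 * k * Fintype.card A) = ((X + 1) ^ k) ^ (2 * Fintype.card A) := by
      rw [← pow_mul]
      congr 1
      ring
    rw [e1, e2]
    exact h1
  obtain ⟨s, t, hst, hΦst⟩ := Fintype.exists_ne_map_eq_of_card_lt Φ hlt
  refine ⟨fun x => ((s x : ℕ) : ℤ) - ((t x : ℕ) : ℤ), ?_, ?_, ?_⟩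
  · intro h0
    apply hst
    funext x
    have := congrFun h0 x
    simp only [Pi.zero_apply, sub_eq_zero] at this
    exact Fin.ext (by exact_mod_cast this)
  · intro x
    have h1 := (s x).2
    have h2 := (t x).2
    show |((s x : ℕ) : ℤ) - ((t x : ℕ) : ℤ)| ≤ X
    rw [abs_le]
    constructor <;> omega
  · intro a
    have h1 : ∑ x, (((((s x : ℕ) : ℤ) - ((t x : ℕ) : ℤ) : ℤ)) : ℂ) * u a x = v s a - v t a := by
      rw [hv]
      simp only
      rw [← sum_sub_distrib]
      refine sum_congr rfl fun x _ => ?_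
      push_cast
      ring
    rw [h1]
    have h2 := congrFun hΦst a
    have hre := hc _ _ ((Complex.abs_re_le_norm _).trans (hvB s a))
      ((Complex.abs_re_le_norm _).trans (hvB t a)) (congrArg Prod.fst h2)
    have him := hc _ _ ((Complex.abs_im_le_norm _).trans (hvB s a))
      ((Complex.abs_im_le_norm _).trans (hvB t a)) (congrArg Prod.snd h2)
    refine (Complex.norm_le_abs_re_add_abs_im _).trans ?_
    rw [Complex.sub_re, Complex.sub_im]
    push_cast at hre him
    have e : 4 * (n * W * X) / (X : ℝ) ^ k = 2 * B / (X : ℝ) ^ k + 2 * B / (X : ℝ) ^ k := by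
      rw [hBdef]; ring
    rw [e]
    exact add_le_add hre him

end Pool.Agent.R347.GS
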