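import Pool.Agent.R347.GS.Core
import Pool.Agent.R347.GS.Num
import Pool.Agent.R347.GS.Fam

/-!
# The auxiliary polynomial
-/

set_option autoImplicit false

namespace Pool.Agent.R347.GS

open Finset Complex

theorem two_aux {a b c : ℕ} (h : a + c ≤ b) : (2 : ℝ) ^ a * ((2 : ℝ) ^ b)⁻¹ ≤ ((2 : ℝ) ^ c)⁻¹ := by
  rw [← div_eq_mul_inv, div_le_iff₀ (by positivity), inv_mul_eq_div, le_div_iff₀ (by positivity),
    ← pow_add]
  exact pow_le_pow_right₀ (by norm_num) h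

def PP (Y V : ℕ) : ℕ :=
  10 + 4 * tt Y + EE Y + (4 + Y + tt Y + V) * (nn Y + 1) ^ 2 + lam Y (nn Y + 1)

def QQ (Y : ℕ) : ℕ :=
  2 * tt Y + 2 + (2 * Y ^ 2 + uu Y) * (D1 Y + 2 * ((nn Y + 1) * D2 Y))

theorem lam_mono (Y : ℕ) {T T' : ℕ} (h : T ≤ T') : lam Y T ≤ lam Y T' := by
  unfold lam hh
  gcongr

theorem start_eq (Y : ℕ) : 3 + tt Y + gam Y (SS Y) + lam Y (SS Y) = EE Y * (Y + 1) := by
  have h : lam Y (SS Y) = Y ^ 2 * (D1 Y + 2 * D2 Y * SS Y) + Y * (tt Y + hh Y (SS Y)) + Y * EE Y := by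
    unfold lam; ring
  rw [h]
  have h2 : EE Y = 3 + tt Y + gam Y (SS Y) + Y ^ 2 * (D1 Y + 2 * D2 Y * SS Y) +
    Y * (tt Y + hh Y (SS Y)) := rfl
  calc 3 + tt Y + gam Y (SS Y) + (Y ^ 2 * (D1 Y + 2 * D2 Y * SS Y) + Y * (tt Y + hh Y (SS Y)) +
        Y * EE Y) = (3 + tt Y + gam Y (SS Y) + Y ^ 2 * (D1 Y + 2 * D2 Y * SS Y) +
    Y * (tt Y + hh Y (SS Y))) + Y * EE Y := by ring
    _ = EE Y + Y * EE Y := by rw [← h2]
    _ = _ := by ring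

theorem SS_pos (Y : ℕ) : 1 ≤ SS Y := Nat.one_le_pow _ _ (by unfold ss; positivity)

theorem SS_le (Y : ℕ) : SS Y ≤ nn Y + 1 := by
  unfold nn D1 D2 SS
  have h : 1 ≤ ss Y := by unfold ss; exact Nat.one_le_two_pow
  have h1 : ss Y ^ 3 ≤ ss Y ^ 5 := Nat.pow_le_pow_right h (by norm_num)
  have h2 : ss Y ^ 5 ≤ ss Y ^ 5 * (2 * (Y + 2) * ss Y) := Nat.le_mul_of_pos_right _ (by positivity)
  omega

/-- **The auxiliary polynomial.** -/
theorem vanish (Y V Λ : ℕ) (hY : 2 ≤ Y) (hV : 1 ≤ V) (hΛ : PP Y V + QQ Y ≤ Λ) (l z : ℂ) (hl : ‖l‖ ≤ Y)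
    (hz : ‖z‖ ≤ Y) (L : IntermediateField ℚ ℂ) [FiniteDimensional ℚ L] [IsGalois ℚ L]
    (hg : Fintype.card (L ≃ₐ[ℚ] L) ≤ Y) (α β γ : L) (D : ℕ) (hD : 1 ≤ D) (hD2 : D ≤ 2 ^ Y)
    (hα : DI D 1 α) (hβ : DI D 1 β) (hγ : DI D 1 γ)
    (cα : ∀ σ : L ≃ₐ[ℚ] L, ‖((σ α : L) : ℂ)‖ ≤ 2 ^ Y)
    (cβ : ∀ σ : L ≃ₐ[ℚ] L, ‖((σ β : L) : ℂ)‖ ≤ 2 ^ Y)
    (cγ : ∀ σ : L ≃ₐ[ℚ] L, ‖((σ γ : L) : ℂ)‖ ≤ 2 ^ Y)
    (e1 : ‖exp l - α‖ ≤ ((2 : ℝ) ^ Λ)⁻¹) (e2 : ‖z - β‖ ≤ ((2 : ℝ) ^ Λ)⁻¹)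
    (e3 : ‖exp (z * l) - γ‖ ≤ ((2 : ℝ) ^ Λ)⁻¹)
    (hsep : ∀ a ∈ box (nn Y + 1), ∀ a' ∈ box (nn Y + 1), a ≠ a' → (V : ℝ)⁻¹ ≤ ‖pt z a - pt z a'‖) :
    ∃ p : Fin (D1 Y) × Fin (D2 Y) → ℤ, p ≠ 0 ∧
      ∀ a ∈ box (nn Y + 1), ∑ x, (p x : ℂ) * val (α : ℂ) (β : ℂ) (γ : ℂ) a x = 0 := by
  have hV0 : (0 : ℝ) < V := by exact_mod_cast hV
  have hY1 : (1 : ℝ) ≤ Y := by exact_mod_cast (by omega : 1 ≤ Y)
  have hYp : (Y : ℝ) ≤ 2 ^ Y := by exact_mod_cast (Nat.lt_two_pow_self (n := Y)).le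
  have hVp : (V : ℝ) ≤ 2 ^ V := by exact_mod_cast (Nat.lt_two_pow_self (n := V)).le
  have hTf : ((nn Y + 1 : ℕ) : ℝ) ≤ 2 ^ tt Y := by exact_mod_cast nn_le Y hY
  have hTle : ∀ T : ℕ, T ≤ nn Y + 1 → (T : ℝ) ≤ 2 ^ tt Y := fun T hT =>
    le_trans (by exact_mod_cast hT) hTf
  have hcardn : (Fintype.card (Fin (D1 Y) × Fin (D2 Y)) : ℝ) ≤ 2 ^ tt Y := by
    rw [Fintype.card_prod, Fintype.card_fin, Fintype.card_fin]
    refine le_trans ?_ hTf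
    exact_mod_cast (Nat.le_succ (D1 Y * D2 Y))
  have hpt : ∀ T, 1 ≤ T → ∀ a ∈ box (T + 1), ‖pt z a‖ ≤ 2 * Y * T := by
    intro T hT a ha
    have := mem_box.1 ha
    unfold pt
    refine (norm_add_le _ _).trans ?_
    rw [norm_mul, norm_natCast, norm_natCast]
    have g1 : (a.1 : ℝ) ≤ T := by exact_mod_cast (by omega : a.1 ≤ T)
    have g2 : (a.2 : ℝ) ≤ T := by exact_mod_cast (by omega : a.2 ≤ T)
    have g3 : (a.2 : ℝ) * ‖z‖ ≤ T * Y := mul_le_mul g2 hz (norm_nonneg _) (by positivity)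
    have g4 : (a.1 : ℝ) ≤ T * Y := g1.trans (le_mul_of_one_le_right (by positivity) hY1)
    linarith
  have hgrow : ∀ T, 1 ≤ T → T ≤ nn Y + 1 → ∀ (x : Fin (D1 Y) × Fin (D2 Y)) (w : ℂ),
      ‖w‖ ≤ 5 * (2 * Y * T) → ‖fn l x w‖ ≤ 2 ^ gam Y T := by
    intro T hT hT2 x w hw
    have h1 := fn_le (d1 := D1 Y) (d2 := D2 Y) l Y (10 * Y * T) (by
      have : 1 ≤ Y * T := Nat.one_le_iff_ne_zero.2 (by positivity)
      nlinarith) hl x w (by push_cast; linarith)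
    refine h1.trans ?_
    unfold gam
    rw [pow_add]
    have h2 : ((10 * Y * T : ℕ) : ℝ) ≤ 2 ^ uu Y := by
      push_cast
      calc (10 : ℝ) * Y * T ≤ 2 ^ 4 * 2 ^ Y * 2 ^ tt Y := by
            have := hTle T hT2
            gcongr
            norm_num
        _ = 2 ^ uu Y := by rw [← pow_add, ← pow_add]; congr 1; unfold uu; ring
    have h3 : ((10 * Y * T : ℕ) : ℝ) ^ D1 Y ≤ 2 ^ (uu Y * D1 Y) := by
      rw [pow_mul]
      exact pow_le_pow_left₀ (by positivity) h2 _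
    have h4 : 2 * (D2 Y * (Y * (10 * Y * T))) = 20 * Y ^ 2 * D2 Y * T := by ring
    rw [h4]
    exact mul_le_mul_of_nonneg_right h3 (by positivity)
  set η : ℝ := ((2 : ℝ) ^ PP Y V)⁻¹ with hη
  have hη0 : 0 ≤ η := by positivity
  have nXη : ∀ c : ℕ, tt Y + EE Y + c ≤ PP Y V →
      (Fintype.card (Fin (D1 Y) × Fin (D2 Y)) : ℝ) * ((2 ^ EE Y : ℕ) : ℝ) * η ≤ ((2 : ℝ) ^ c)⁻¹ := by
    intro c hc
    refine le_trans ?_ (two_aux hc)
    rw [pow_add]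
    push_cast
    gcongr
  refine core (Λ := Fin (D1 Y) × Fin (D2 Y)) (A := ℕ × ℕ) (fn l) (fun x => fn_diff l x) (pt z)
    (fun a x => val (α : ℂ) (β : ℂ) (γ : ℂ) a x) box box_mono (SS Y) (nn Y + 1) (SS_le Y) ?_ (Y + 2)
    (2 ^ EE Y) (by omega) Nat.one_le_two_pow ?_ (2 ^ gam Y (SS Y)) (by positivity) ?_ η (V : ℝ)⁻¹ hη0
    (by positivity) (inv_le_one_of_one_le₀ (by exact_mod_cast hV)) (fun T => 2 * Y * T)
    (fun T => 2 ^ gam Y T) (fun T => ((2 : ℝ) ^ lam Y T)⁻¹) ?_ ?_ ?_ ?_ hsep ?_ ?_ ?_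
  · exact ⟨(0, 0), mem_box.2 ⟨SS_pos Y, SS_pos Y⟩⟩
  · rw [Fintype.card_prod, Fintype.card_fin, Fintype.card_fin, card_box]
    unfold D1 D2 SS
    ring
  · intro a ha x
    have h1 := SS_pos Y
    refine hgrow (SS Y) h1 (SS_le Y) x _ ?_
    refine (hpt (SS Y) h1 a (box_mono (Nat.le_succ _) ha)).trans ?_
    have : (0 : ℝ) ≤ 2 * Y * (SS Y : ℝ) := by positivity
    linarith
  · intro T hT
    have h1 : (1 : ℝ) ≤ T := by exact_mod_cast (SS_pos Y).trans hT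
    nlinarith
  · intro T hT _ a ha
    exact hpt T ((SS_pos Y).trans hT) a ha
  · intro T hT hT2 x w hw
    exact hgrow T ((SS_pos Y).trans hT) hT2.le x w hw.le
  · intro a ha x
    have hB : (1 : ℝ) ≤ 2 ^ (2 * Y ^ 2 + uu Y) := one_le_pow₀ (by norm_num)
    have hpw : ∀ c : ℕ, c ≤ 2 * Y ^ 2 + uu Y → (2 : ℝ) ^ c ≤ 2 ^ (2 * Y ^ 2 + uu Y) := fun c hc =>
      pow_le_pow_right₀ (by norm_num) hc
    have one_app : ∀ (c : L), ((((1 : L ≃ₐ[ℚ] L) c : L)) : ℂ) = (c : ℂ) := fun _ => rfl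
    have hβn : ‖(β : ℂ)‖ ≤ 2 ^ Y := by have := cβ 1; rwa [one_app] at this
    have hbox : ∀ (b : ℂ), ‖b‖ ≤ 2 ^ Y → ∀ a ∈ box (nn Y + 1), ‖pt b a‖ ≤ 2 ^ (2 * Y ^ 2 + uu Y) := by
      intro b hb a ha
      have := mem_box.1 ha
      unfold pt
      refine (norm_add_le _ _).trans ?_
      rw [norm_mul, norm_natCast, norm_natCast]
      have g1 : (a.1 : ℝ) ≤ 2 ^ tt Y := hTle _ (by omega)
      have g2 : (a.2 : ℝ) ≤ 2 ^ tt Y := hTle _ (by omega)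
      have g3 : (a.2 : ℝ) * ‖b‖ ≤ 2 ^ tt Y * 2 ^ Y := mul_le_mul g2 hb (norm_nonneg _) (by positivity)
      have g4 : (a.1 : ℝ) ≤ 2 ^ tt Y * 2 ^ Y :=
        g1.trans (le_mul_of_one_le_right (by positivity) (one_le_pow₀ (by norm_num)))
      calc (a.1 : ℝ) + a.2 * ‖b‖ ≤ 2 ^ (tt Y + Y + 1) := by
            rw [pow_succ, pow_add]; linarith
        _ ≤ _ := hpw _ (by unfold uu; omega)
    have h1 := apx (d1 := D1 Y) (d2 := D2 Y) (nn Y + 1) l z α β γ (2 ^ (2 * Y ^ 2 + uu Y))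
      (((2 : ℝ) ^ Λ)⁻¹) hB (by positivity)
      (by
        refine (norm_exp_le_exp_norm _).trans ((Real.exp_le_exp.2 hl).trans
          ((exp_le_two_pow Y).trans (hpw _ ?_)))
        unfold uu tt; omega)
      (by have := cα 1; rw [one_app] at this; exact this.trans (hpw _ (by unfold uu; omega)))
      (by
        refine (norm_exp_le_exp_norm _).trans ?_
        have : ‖z * l‖ ≤ ((Y ^ 2 : ℕ) : ℝ) := by
          rw [norm_mul]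
          push_cast
          rw [pow_two]
          exact mul_le_mul hz hl (norm_nonneg _) (by positivity)
        refine (Real.exp_le_exp.2 this).trans ((exp_le_two_pow (Y ^ 2)).trans (hpw _ ?_))
        omega)
      (by have := cγ 1; rw [one_app] at this; exact this.trans (hpw _ (by unfold uu; omega)))
      (fun a ha => ⟨hbox z (hz.trans hYp) a ha, hbox β hβn a ha⟩) e1 e2 e3 a ha x
    refine h1.trans ?_
    have h2 : (((D1 Y : ℕ) : ℝ) + 2 * (D2 Y : ℕ)) * ((nn Y + 1 : ℕ) : ℝ) ≤ 2 ^ (2 * tt Y + 2) := by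
      have hD1n : ((D1 Y : ℕ) : ℝ) ≤ 2 ^ tt Y := hTle _ (by
        unfold nn
        have : 1 ≤ D2 Y := by unfold D2 ss; exact Nat.one_le_iff_ne_zero.2 (by positivity)
        nlinarith)
      have hD2n : ((D2 Y : ℕ) : ℝ) ≤ 2 ^ tt Y := hTle _ (by
        unfold nn
        have : 1 ≤ D1 Y := by unfold D1 ss; exact Nat.one_le_iff_ne_zero.2 (by positivity)
        nlinarith)
      have h0 : (0 : ℝ) ≤ 2 ^ tt Y := by positivity
      calc _ ≤ ((2 : ℝ) ^ tt Y + 2 * 2 ^ tt Y) * 2 ^ tt Y := by gcongr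
        _ ≤ (4 * 2 ^ tt Y) * 2 ^ tt Y := by nlinarith
        _ = 2 ^ (2 * tt Y + 2) := by rw [pow_add, two_mul, pow_add]; ring
    calc (((D1 Y : ℕ) : ℝ) + 2 * (D2 Y : ℕ)) * ((nn Y + 1 : ℕ) : ℝ) *
          (2 ^ (2 * Y ^ 2 + uu Y)) ^ (D1 Y + 2 * ((nn Y + 1) * D2 Y)) * ((2 : ℝ) ^ Λ)⁻¹
        ≤ 2 ^ (2 * tt Y + 2) * 2 ^ ((2 * Y ^ 2 + uu Y) * (D1 Y + 2 * ((nn Y + 1) * D2 Y))) *
          ((2 : ℝ) ^ Λ)⁻¹ := by rw [← pow_mul]; gcongr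
      _ = 2 ^ QQ Y * ((2 : ℝ) ^ Λ)⁻¹ := by rw [← pow_add]; rfl
      _ ≤ η := two_aux (by omega)
  · intro T hT hT2 p hp a ha hne
    have hT1 : 1 ≤ T := (SS_pos Y).trans hT
    set v : L := ∑ x, (p x : L) * val α β γ a x with hv
    have hvC : (v : ℂ) = ∑ x, (p x : ℂ) * val (α : ℂ) (β : ℂ) (γ : ℂ) a x := by
      rw [hv]
      push_cast
      exact sum_congr rfl fun x _ => by rw [val_coe]
    have hv0 : v ≠ 0 := by
      intro h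
      apply hne
      rw [← hvC, h]
      rfl
    have hvDI : DI D (D1 Y + 2 * (T * D2 Y)) v := DI.sum _ _ fun x _ => by
      have := (DI.int (L := L) D 0 (p x)).mul (val_DI D T α β γ hα hβ hγ a ha x)
      rwa [zero_add] at this
    have hcon : ∀ σ : L ≃ₐ[ℚ] L, ‖((σ v : L) : ℂ)‖ ≤ 2 ^ (tt Y + EE Y + hh Y T) := by
      intro σ
      have e : ((σ v : L) : ℂ) = ∑ x, (p x : ℂ) * ((σ (val α β γ a x) : L) : ℂ) := by
        rw [hv, map_sum]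
        push_cast
        refine sum_congr rfl fun x _ => ?_
        rw [map_mul, map_intCast]
        push_cast
        rfl
      rw [e]
      refine (norm_sum_le _ _).trans ?_
      have hterm : ∀ x : Fin (D1 Y) × Fin (D2 Y), ‖(p x : ℂ) * ((σ (val α β γ a x) : L) : ℂ)‖ ≤
          2 ^ EE Y * 2 ^ hh Y T := by
        intro x
        rw [norm_mul, norm_intCast]
        have h1 : |(p x : ℝ)| ≤ 2 ^ EE Y := by exact_mod_cast hp x
        have h2 := val_conj (d1 := D1 Y) (d2 := D2 Y) T α β γ (2 ^ Y) (one_le_pow₀ (by norm_num)) σ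
          (cα σ) (cβ σ) (cγ σ) a ha x
        have h3 : (2 * ((T : ℝ) * 2 ^ Y)) ^ D1 Y ≤ 2 ^ (uu Y * D1 Y) := by
          rw [pow_mul]
          refine pow_le_pow_left₀ (by positivity) ?_ _
          calc 2 * ((T : ℝ) * 2 ^ Y) ≤ 2 ^ 4 * (2 ^ tt Y * 2 ^ Y) := by
                have := hTle T hT2
                gcongr
                norm_num
            _ = 2 ^ uu Y := by rw [← pow_add, ← pow_add]; congr 1; unfold uu; ring
        have h4 : ((2 : ℝ) ^ Y) ^ (2 * (T * D2 Y)) = 2 ^ (2 * Y * T * D2 Y) := by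
          rw [← pow_mul]; congr 1; ring
        refine mul_le_mul h1 (h2.trans ?_) (norm_nonneg _) (by positivity)
        unfold hh
        rw [pow_add, h4]
        exact mul_le_mul_of_nonneg_right h3 (by positivity)
      calc ∑ x, ‖(p x : ℂ) * ((σ (val α β γ a x) : L) : ℂ)‖
          ≤ ∑ _x : Fin (D1 Y) × Fin (D2 Y), 2 ^ EE Y * 2 ^ hh Y T := sum_le_sum fun x _ => hterm x
        _ = (Fintype.card (Fin (D1 Y) × Fin (D2 Y)) : ℝ) * (2 ^ EE Y * 2 ^ hh Y T) := by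
            rw [sum_const, card_univ, nsmul_eq_mul]
        _ ≤ 2 ^ tt Y * (2 ^ EE Y * 2 ^ hh Y T) := by gcongr
        _ = _ := by rw [← pow_add, ← pow_add]; congr 1; ring
    have h1 := liouville L D (D1 Y + 2 * (T * D2 Y)) _ rfl v hvDI hv0 (2 ^ (tt Y + EE Y + hh Y T))
      (one_le_pow₀ (by norm_num)) hcon hD
    rw [← hvC]
    rw [inv_le_iff_one_le_mul₀ (by positivity)]
    refine h1.trans ?_
    rw [mul_comm]
    refine mul_le_mul_of_nonneg_left ?_ (norm_nonneg _)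
    have hDm : ((D : ℝ) ^ (D1 Y + 2 * (T * D2 Y))) ≤ 2 ^ (Y * (D1 Y + 2 * D2 Y * T)) := by
      rw [pow_mul]
      have e : D1 Y + 2 * (T * D2 Y) = D1 Y + 2 * D2 Y * T := by ring
      rw [e]
      exact pow_le_pow_left₀ (by positivity) (by exact_mod_cast hD2) _
    calc ((D : ℝ) ^ (D1 Y + 2 * (T * D2 Y)) * 2 ^ (tt Y + EE Y + hh Y T)) ^
          Fintype.card (L ≃ₐ[ℚ] L)
        ≤ (2 ^ (Y * (D1 Y + 2 * D2 Y * T)) * 2 ^ (tt Y + EE Y + hh Y T)) ^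
          Fintype.card (L ≃ₐ[ℚ] L) := by gcongr
      _ ≤ (2 ^ (Y * (D1 Y + 2 * D2 Y * T)) * 2 ^ (tt Y + EE Y + hh Y T)) ^ Y := by
          refine pow_le_pow_right₀ ?_ hg
          rw [← pow_add]
          exact one_le_pow₀ (by norm_num)
      _ = 2 ^ lam Y T := by
          rw [← pow_add, ← pow_mul]; congr 1; unfold lam; ring
  · have h2 := nXη (lam Y (SS Y) + 2) (by
      have := lam_mono Y (SS_le Y)
      unfold PP; omega)
    have h1 : 4 * ((Fintype.card (Fin (D1 Y) × Fin (D2 Y)) : ℝ) * 2 ^ gam Y (SS Y) *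
        ((2 ^ EE Y : ℕ) : ℝ)) / ((2 ^ EE Y : ℕ) : ℝ) ^ (Y + 2) ≤ ((2 : ℝ) ^ (lam Y (SS Y) + 1))⁻¹ := by
      have h3 : 4 * ((Fintype.card (Fin (D1 Y) × Fin (D2 Y)) : ℝ) * 2 ^ gam Y (SS Y) *
          ((2 ^ EE Y : ℕ) : ℝ)) ≤ 2 ^ (2 + tt Y + gam Y (SS Y) + EE Y) := by
        rw [pow_add, pow_add, pow_add]
        push_cast
        calc 4 * ((Fintype.card (Fin (D1 Y) × Fin (D2 Y)) : ℝ) * 2 ^ gam Y (SS Y) * 2 ^ EE Y)
            ≤ 4 * (2 ^ tt Y * 2 ^ gam Y (SS Y) * 2 ^ EE Y) := by gcongr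
          _ = _ := by ring
      have h4 : ((2 ^ EE Y : ℕ) : ℝ) ^ (Y + 2) = 2 ^ (EE Y * (Y + 2)) := by
        push_cast; rw [pow_mul]
      rw [h4, div_eq_mul_inv]
      refine (mul_le_mul_of_nonneg_right h3 (by positivity)).trans (two_aux ?_)
      have h5 := start_eq Y
      have h6 : EE Y * (Y + 2) = EE Y * (Y + 1) + EE Y := by ring
      omega
    have h3 : ((2 : ℝ) ^ (lam Y (SS Y) + 1))⁻¹ = ((2 : ℝ) ^ lam Y (SS Y))⁻¹ / 2 := by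
      rw [pow_succ]; field_simp
    have h4 : ((2 : ℝ) ^ (lam Y (SS Y) + 2))⁻¹ = ((2 : ℝ) ^ lam Y (SS Y))⁻¹ / 4 := by
      rw [pow_add]; field_simp; norm_num
    have h5 : 0 < ((2 : ℝ) ^ lam Y (SS Y))⁻¹ := by positivity
    rw [h3] at h1
    rw [h4] at h2
    show _ < ((2 : ℝ) ^ lam Y (SS Y))⁻¹
    linarith
  · intro T hT hT2
    have hT1 : 1 ≤ T := (SS_pos Y).trans hT
    have hlm : lam Y (T + 1) ≤ lam Y (nn Y + 1) := lam_mono Y hT2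
    have hP : PP Y V = 10 + 4 * tt Y + EE Y + (4 + Y + tt Y + V) * (nn Y + 1) ^ 2 +
      lam Y (nn Y + 1) := rfl
    have a3 := nXη (lam Y (T + 1) + 3) (by omega)
    rw [card_box]
    have a1 : (Fintype.card (Fin (D1 Y) × Fin (D2 Y)) : ℝ) * ((2 ^ EE Y : ℕ) : ℝ) * 2 ^ gam Y T /
        2 ^ (T ^ 2) ≤ ((2 : ℝ) ^ (lam Y (T + 1) + 3))⁻¹ := by
      rw [div_eq_mul_inv]
      refine le_trans ?_ (two_aux (a := tt Y + EE Y + gam Y T) (b := T ^ 2) ?_)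
      · rw [pow_add, pow_add]
        push_cast
        gcongr
      · have := main_ineq Y T hY hT
        omega
    have a2 : 2 * (((T ^ 2 : ℕ) : ℝ) * ((Fintype.card (Fin (D1 Y) × Fin (D2 Y)) : ℝ) *
        ((2 ^ EE Y : ℕ) : ℝ) * η) * (6 * (2 * Y * T) / (V : ℝ)⁻¹) ^ (T ^ 2)) ≤
        ((2 : ℝ) ^ (lam Y (T + 1) + 3))⁻¹ := by
      have b1 : ((T ^ 2 : ℕ) : ℝ) ≤ 2 ^ (2 * tt Y) := by
        push_cast
        rw [two_mul, pow_add, ← pow_two]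
        exact pow_le_pow_left₀ (by positivity) (hTle T hT2.le) 2
      have b2 : 6 * (2 * Y * T) / (V : ℝ)⁻¹ ≤ 2 ^ (4 + Y + tt Y + V) := by
        rw [div_inv_eq_mul, pow_add, pow_add, pow_add]
        calc 6 * (2 * (Y : ℝ) * T) * V = 12 * Y * T * V := by ring
          _ ≤ 2 ^ 4 * 2 ^ Y * 2 ^ tt Y * 2 ^ V := by
              have := hTle T hT2.le
              gcongr
              norm_num
      have b3 : (6 * (2 * Y * T) / (V : ℝ)⁻¹) ^ (T ^ 2) ≤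
          2 ^ ((4 + Y + tt Y + V) * (nn Y + 1) ^ 2) := by
        rw [pow_mul]
        have b4 : (1 : ℝ) ≤ 2 ^ (4 + Y + tt Y + V) := one_le_pow₀ (by norm_num)
        refine (pow_le_pow_left₀ (by positivity) b2 _).trans (pow_le_pow_right₀ b4 ?_)
        exact Nat.pow_le_pow_left hT2.le 2
      calc 2 * (((T ^ 2 : ℕ) : ℝ) * ((Fintype.card (Fin (D1 Y) × Fin (D2 Y)) : ℝ) *
            ((2 ^ EE Y : ℕ) : ℝ) * η) * (6 * (2 * Y * T) / (V : ℝ)⁻¹) ^ (T ^ 2))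
          ≤ 2 * (2 ^ (2 * tt Y) * (2 ^ tt Y * ((2 ^ EE Y : ℕ) : ℝ) * η) *
            2 ^ ((4 + Y + tt Y + V) * (nn Y + 1) ^ 2)) := by gcongr
        _ = 2 ^ (1 + 3 * tt Y + EE Y + (4 + Y + tt Y + V) * (nn Y + 1) ^ 2) * η := by
            push_cast
            rw [pow_add 2 _ ((4 + Y + tt Y + V) * (nn Y + 1) ^ 2), pow_add 2 _ (EE Y), pow_add 2 1 _,
              show 3 * tt Y = 2 * tt Y + tt Y by ring, pow_add 2 (2 * tt Y) (tt Y)]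
            ring
        _ ≤ _ := two_aux (by omega)
    have h4 : ((2 : ℝ) ^ (lam Y (T + 1) + 3))⁻¹ = ((2 : ℝ) ^ lam Y (T + 1))⁻¹ / 8 := by
      rw [pow_add]; field_simp; norm_num
    have h5 : 0 < ((2 : ℝ) ^ lam Y (T + 1))⁻¹ := by positivity
    rw [h4] at a1 a2 a3
    show _ < ((2 : ℝ) ^ lam Y (T + 1))⁻¹
    linarith

end Pool.Agent.R347.GS
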